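import Pool.Agent.H906.BD.S.Defs
import Pool.Agent.H906.BD.NormProd

/-! # P03 DetLat: the determinants of the linear parts have modulus one

(1) `norm_det_eq_one`: a complex matrix which maps a lattice of `ℂ^B` onto itself has determinant of modulus one. Proof:
see `norm_prod_eq_one` in `NormProd.lean` (the diagonal case: the `ℝ`-linear map `x ↦ M.mulVec x` has an integral matrix with
integral inverse in a `ℤ`-basis of the lattice, so its real determinant is `±1`, and the real determinant is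
`‖det M‖ ^ 2`: `LinearMap.det_restrictScalars`, `Algebra.norm_complex_apply`).
(2) `unitary_det`: `M : Δ → Matrix B B ℂ` are the linear parts of `ρ δ` (`haff`), multiplicative. The set `T` of all translation
vectors, `T = {v | ∃ δ, ∀ x ∈ Tot D B, ρ δ x = Sum.elim (prA x) (prB x + v)}`, is an additive subgroup of `ℂ^B` (products and
inverses in `Δ`), it has finitely many elements of norm `≤ r` (`hpd` for the compact set
`{Sum.elim z₀ w | ‖w‖ ≤ r}`, `z₀ ∈ D`; the `v`'s in question are determined by the `δ`'s), and spans because it contains `L`.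
For `v ∈ T`, given by `γ`, and `δ ∈ Δ`, `δ γ δ⁻¹` gives `(M δ).mulVec v ∈ T` (by `haff` and `hρσ`:
`ρ δ (ρ γ y) = ρ δ (y + v) = ρ δ y + M_δ v`, with `y = ρ δ⁻¹ x`; the `D`-components: `prA (ρ δ (ρ γ y)) = σ δ (prA y) = prA x`).
The same for `δ⁻¹` (`M δ * M δ⁻¹ = M 1 = 1`, where `M 1 = 1` follows from `haff` for `δ = 1`), so `M δ` maps `T` onto `T`.
(3) If `δ ^ m` is a translation then `M (δ ^ m) = 1` (`haff`: `M (δ ^ m) v = v` for all `v`), so `(M δ).det ^ m = 1`. -/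

set_option linter.unusedSectionVars false

open Filter Topology Set Metric

namespace Pool.Agent.H906.BD.S

variable {A B : Type*} [Fintype A] [Fintype B] [DecidableEq A] [DecidableEq B]
variable {Δ : Type*} [Group Δ]

theorem pdetlat_elim_prA (z : A → ℂ) (w : B → ℂ) : prA (Sum.elim z w : A ⊕ B → ℂ) = z := rfl

theorem pdetlat_elim_prB (z : A → ℂ) (w : B → ℂ) : prB (Sum.elim z w : A ⊕ B → ℂ) = w := rfl

theorem pdetlat_elim (x : A ⊕ B → ℂ) : Sum.elim (prA x) (prB x) = x := by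
  funext i
  rcases i with i | i <;> rfl

theorem pdetlat_eq_one {M : Matrix B B ℂ} (h : ∀ v : B → ℂ, M.mulVec v = v) : M = 1 := by
  ext i j
  have := congrFun (h (Pi.single j 1)) i
  rw [Matrix.mulVec_single_one] at this
  rw [Matrix.one_apply]
  simpa [Pi.single_apply, eq_comm] using this

theorem norm_det_eq_one {L : AddSubgroup (B → ℂ)} (hL : IsLattice L) {M : Matrix B B ℂ}
    (h1 : ∀ x ∈ L, M.mulVec x ∈ L) (h2 : ∀ x ∈ L, ∃ y ∈ L, M.mulVec y = x) : ‖M.det‖ = 1 := by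
  classical
  have hdisc := normprod_disc L hL.discrete
  set Lz : Submodule ℤ (B → ℂ) := AddSubgroup.toIntSubmodule L with hLz
  have hlat : IsZLattice ℝ Lz := ⟨hL.span⟩
  have hfree : Module.Free ℤ Lz := ZLattice.module_free ℝ Lz
  have hfinM : Module.Finite ℤ Lz := ZLattice.module_finite ℝ Lz
  let b := Module.Free.chooseBasis ℤ Lz
  let bR := b.ofZLatticeBasis ℝ Lz
  let TC : (B → ℂ) →ₗ[ℂ] (B → ℂ) := Matrix.toLin' M
  let T : (B → ℂ) →ₗ[ℝ] (B → ℂ) := TC.restrictScalars ℝ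
  let Tz : Lz →ₗ[ℤ] Lz := (TC.restrictScalars ℤ).restrict (fun x hx => h1 x hx)
  have hTz : ∀ x : Lz, ((Tz x : Lz) : B → ℂ) = M.mulVec (x : B → ℂ) := fun x => rfl
  have hsurj : Function.Surjective Tz := by
    intro x
    obtain ⟨y, hy, hy'⟩ := h2 x x.2
    exact ⟨⟨y, hy⟩, Subtype.ext hy'⟩
  have hinj : Function.Injective Tz := OrzechProperty.injective_of_surjective_endomorphism Tz hsurj
  have hunit : IsUnit (LinearMap.det Tz) :=
    LinearEquiv.isUnit_det' (LinearEquiv.ofBijective Tz ⟨hinj, hsurj⟩)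
  have hdet : LinearMap.det T = ((LinearMap.det Tz : ℤ) : ℝ) := by
    rw [← LinearMap.det_toMatrix bR T, ← LinearMap.det_toMatrix b Tz, Int.cast_det]
    refine congrArg Matrix.det ?_
    ext i j
    rw [LinearMap.toMatrix_apply, Matrix.map_apply, LinearMap.toMatrix_apply]
    have e1 : bR j = ((b j : Lz) : B → ℂ) := b.ofZLatticeBasis_apply ℝ Lz j
    have e2 : T (bR j) = ((Tz (b j) : Lz) : B → ℂ) := by
      rw [e1]
      rfl
    rw [e2]
    exact b.ofZLatticeBasis_repr_apply ℝ Lz (Tz (b j)) i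
  have hdetC : LinearMap.det TC = M.det := LinearMap.det_toLin' M
  have hdet2 : LinearMap.det T = Complex.normSq M.det := by
    rw [← hdetC, ← Algebra.norm_complex_apply]
    exact LinearMap.det_restrictScalars
  have h1 : |LinearMap.det T| = 1 := by
    rw [hdet, ← Int.cast_abs, Int.isUnit_iff_abs_eq.1 hunit, Int.cast_one]
  rw [hdet2, abs_of_nonneg (Complex.normSq_nonneg _), Complex.normSq_eq_norm_sq] at h1
  have h2 : (‖M.det‖ - 1) * (‖M.det‖ + 1) = 0 := by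
    ring_nf
    rw [h1]
    norm_num
  rcases mul_eq_zero.1 h2 with h3 | h3
  · linarith
  · have := norm_nonneg M.det
    linarith

theorem pdetlat_M_one {D : Set (A → ℂ)} (hne : D.Nonempty)
    {ρ : Δ → (A ⊕ B → ℂ) → (A ⊕ B → ℂ)} {M : Δ → Matrix B B ℂ}
    (haff : ∀ δ, ∀ x ∈ Tot D B, ∀ v : B → ℂ,
      prB (ρ δ (Sum.elim (prA x) (prB x + v))) = prB (ρ δ x) + (M δ).mulVec v)
    {δ : Δ} (h : ∃ v : B → ℂ, ∀ x ∈ Tot D B, ρ δ x = Sum.elim (prA x) (prB x + v)) :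
    M δ = 1 := by
  obtain ⟨z₀, hz₀⟩ := hne
  obtain ⟨w, hw⟩ := h
  refine pdetlat_eq_one fun v => ?_
  have h0 : (Sum.elim z₀ 0 : A ⊕ B → ℂ) ∈ Tot D B := hz₀
  have hv : (Sum.elim z₀ (0 + v) : A ⊕ B → ℂ) ∈ Tot D B := hz₀
  have e := haff δ _ h0 v
  rw [pdetlat_elim_prA, pdetlat_elim_prB, hw _ hv, hw _ h0, pdetlat_elim_prB, pdetlat_elim_prB,
    pdetlat_elim_prB, pdetlat_elim_prB] at e
  have e2 : v + w = w + (M δ).mulVec v := by simpa using e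
  rw [add_comm v w] at e2
  exact (add_left_cancel e2).symm

theorem pdetlat_one {D : Set (A → ℂ)}
    {ρ : Δ → (A ⊕ B → ℂ) → (A ⊕ B → ℂ)} (hρ : HolAct (Tot D B) ρ) :
    ∃ v : B → ℂ, ∀ x ∈ Tot D B, ρ 1 x = Sum.elim (prA x) (prB x + v) :=
  ⟨0, fun x hx => by rw [hρ.one x hx, add_zero, pdetlat_elim]⟩

/-- the group of all translation vectors -/
def pdetlat_T {D : Set (A → ℂ)} {ρ : Δ → (A ⊕ B → ℂ) → (A ⊕ B → ℂ)} (hρ : HolAct (Tot D B) ρ) :
    AddSubgroup (B → ℂ) where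
  carrier := {v | ∃ δ, ∀ x ∈ Tot D B, ρ δ x = Sum.elim (prA x) (prB x + v)}
  zero_mem' := ⟨1, fun x hx => by rw [hρ.one x hx, add_zero, pdetlat_elim]⟩
  add_mem' := by
    rintro v w ⟨γ, hγ⟩ ⟨δ, hδ⟩
    refine ⟨γ * δ, fun x hx => ?_⟩
    have hy : (Sum.elim (prA x) (prB x + w) : A ⊕ B → ℂ) ∈ Tot D B := hx
    rw [hρ.mul γ δ x hx, hδ x hx, hγ _ hy, pdetlat_elim_prA, pdetlat_elim_prB, add_assoc,
      add_comm w v]
  neg_mem' := by
    rintro v ⟨γ, hγ⟩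
    refine ⟨γ⁻¹, fun x hx => ?_⟩
    have hy : (Sum.elim (prA x) (prB x + -v) : A ⊕ B → ℂ) ∈ Tot D B := hx
    have e := hγ _ hy
    rw [pdetlat_elim_prA, pdetlat_elim_prB, add_assoc, neg_add_cancel, add_zero,
      pdetlat_elim] at e
    have e2 := hρ.mul γ⁻¹ γ _ hy
    rw [inv_mul_cancel, hρ.one _ hy, e] at e2
    exact e2.symm

theorem pdetlat_mulVec_mem {D : Set (A → ℂ)}
    {ρ : Δ → (A ⊕ B → ℂ) → (A ⊕ B → ℂ)} (hρ : HolAct (Tot D B) ρ)
    {σ : Δ → (A → ℂ) → (A → ℂ)}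
    (hρσ : ∀ δ, ∀ x ∈ Tot D B, prA (ρ δ x) = σ δ (prA x))
    {M : Δ → Matrix B B ℂ}
    (haff : ∀ δ, ∀ x ∈ Tot D B, ∀ v : B → ℂ,
      prB (ρ δ (Sum.elim (prA x) (prB x + v))) = prB (ρ δ x) + (M δ).mulVec v)
    (δ : Δ) {v : B → ℂ} (hv : v ∈ pdetlat_T hρ) : (M δ).mulVec v ∈ pdetlat_T hρ := by
  obtain ⟨γ, hγ⟩ := hv
  refine ⟨δ * γ * δ⁻¹, fun x hx => ?_⟩
  have hy := hρ.maps δ⁻¹ x hx
  set y := ρ δ⁻¹ x with hydef
  have hy' : (Sum.elim (prA y) (prB y + v) : A ⊕ B → ℂ) ∈ Tot D B := hy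
  have e1 : ρ δ y = x := by
    rw [hydef, ← hρ.mul δ δ⁻¹ x hx, mul_inv_cancel, hρ.one x hx]
  rw [hρ.mul _ _ x hx, ← hydef, hρ.mul _ _ y hy, hγ y hy, ← pdetlat_elim (ρ δ _),
    hρσ δ _ hy', pdetlat_elim_prA, haff δ y hy v, ← hρσ δ y hy, e1]

theorem pdetlat_lattice {D : Set (A → ℂ)} (hne : D.Nonempty)
    {ρ : Δ → (A ⊕ B → ℂ) → (A ⊕ B → ℂ)} (hρ : HolAct (Tot D B) ρ) (hpd : PD (Tot D B) ρ)
    {L : AddSubgroup (B → ℂ)} (hL : IsLattice L)
    (hLt : ∀ v ∈ L, ∃ δ, ∀ x ∈ Tot D B, ρ δ x = Sum.elim (prA x) (prB x + v)) :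
    IsLattice (pdetlat_T hρ) := by
  obtain ⟨z₀, hz₀⟩ := hne
  refine ⟨fun r => ?_, ?_⟩
  · set K : Set (A ⊕ B → ℂ) := (fun w : B → ℂ => Sum.elim z₀ w) '' closedBall 0 r with hK
    have hcont : Continuous (fun w : B → ℂ => (Sum.elim z₀ w : A ⊕ B → ℂ)) := by
      refine continuous_pi fun i => ?_
      rcases i with i | i
      · exact continuous_const
      · exact continuous_apply i
    have hKc : IsCompact K := (isCompact_closedBall 0 r).image hcont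
    have hKU : K ⊆ Tot D B := by
      rintro _ ⟨w, _, rfl⟩
      exact hz₀
    refine ((hpd K hKU hKc).image fun δ => prB (ρ δ (Sum.elim z₀ 0))).subset ?_
    rintro v ⟨⟨δ, hδ⟩, hvr⟩
    have h0 : (Sum.elim z₀ 0 : A ⊕ B → ℂ) ∈ Tot D B := hz₀
    have e := hδ _ h0
    rw [pdetlat_elim_prA, pdetlat_elim_prB, zero_add] at e
    refine ⟨δ, ⟨Sum.elim z₀ v, ⟨Sum.elim z₀ 0, ⟨0, ?_, rfl⟩, e⟩, ⟨v, ?_, rfl⟩⟩, ?_⟩
    · simpa using (norm_nonneg v).trans hvr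
    · simpa using hvr
    · simp only [e, pdetlat_elim_prB]
  · rw [eq_top_iff, ← hL.span]
    exact Submodule.span_mono fun v hv => hLt v hv

theorem unitary_det {D : Set (A → ℂ)} (hne : D.Nonempty)
    {ρ : Δ → (A ⊕ B → ℂ) → (A ⊕ B → ℂ)} (hρ : HolAct (Tot D B) ρ) (hpd : PD (Tot D B) ρ)
    {σ : Δ → (A → ℂ) → (A → ℂ)} (hσ : HolAct D σ)
    (hρσ : ∀ δ, ∀ x ∈ Tot D B, prA (ρ δ x) = σ δ (prA x))
    {L : AddSubgroup (B → ℂ)} (hL : IsLattice L)
    (hLt : ∀ v ∈ L, ∃ δ, ∀ x ∈ Tot D B, ρ δ x = Sum.elim (prA x) (prB x + v))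
    {M : Δ → Matrix B B ℂ}
    (haff : ∀ δ, ∀ x ∈ Tot D B, ∀ v : B → ℂ,
      prB (ρ δ (Sum.elim (prA x) (prB x + v))) = prB (ρ δ x) + (M δ).mulVec v)
    (hM : ∀ δ ε, M (δ * ε) = M δ * M ε) (δ : Δ) : ‖(M δ).det‖ = 1 := by
  have h1 : M 1 = 1 := pdetlat_M_one hne haff (pdetlat_one hρ)
  refine norm_det_eq_one (pdetlat_lattice hne hρ hpd hL hLt)
    (fun x hx => pdetlat_mulVec_mem hρ hρσ haff δ hx) fun x hx => ?_
  refine ⟨(M δ⁻¹).mulVec x, pdetlat_mulVec_mem hρ hρσ haff δ⁻¹ hx, ?_⟩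
  rw [Matrix.mulVec_mulVec, ← hM, mul_inv_cancel, h1, Matrix.one_mulVec]

theorem det_pow_eq_one {D : Set (A → ℂ)} (hne : D.Nonempty)
    {ρ : Δ → (A ⊕ B → ℂ) → (A ⊕ B → ℂ)} (hρ : HolAct (Tot D B) ρ)
    {M : Δ → Matrix B B ℂ}
    (haff : ∀ δ, ∀ x ∈ Tot D B, ∀ v : B → ℂ,
      prB (ρ δ (Sum.elim (prA x) (prB x + v))) = prB (ρ δ x) + (M δ).mulVec v)
    (hM : ∀ δ ε, M (δ * ε) = M δ * M ε) {δ : Δ} {m : ℕ}
    (h : ∃ v : B → ℂ, ∀ x ∈ Tot D B, ρ (δ ^ m) x = Sum.elim (prA x) (prB x + v)) :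
    (M δ).det ^ m = 1 := by
  have h1 : M 1 = 1 := pdetlat_M_one hne haff (pdetlat_one hρ)
  have h2 : M (δ ^ m) = 1 := pdetlat_M_one hne haff h
  have h3 : ∀ k : ℕ, M (δ ^ k) = M δ ^ k := by
    intro k
    induction k with
    | zero => rw [pow_zero, pow_zero, h1]
    | succ k ih => rw [pow_succ, hM, ih, pow_succ]
  rw [← Matrix.det_pow, ← h3, h2, Matrix.det_one]

end Pool.Agent.H906.BD.S
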