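import Pool.Agent.H906.BD.S.Base
import Pool.Agent.H906.BD.S.Torus
import Pool.Agent.H906.BD.Final

/-! # P01 Fib: the action on the fibres `ℂ^B` is affine with constant linear part

`L` is a lattice of translations of the fibres which is normalised by the group (`hN`).
Proof. (1) Fix `δ` and `z ∈ D`. The function `w ↦ fderiv ℂ (ρ δ) (Sum.elim z w) (Pi.single (inr k) 1) (inr j)`
is entire on `ℂ^B` (derivatives of holomorphic functions are holomorphic: see `Hol.lean`, `jacDet_hol` in `Sum.lean`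
and Mathlib `DifferentiableOn.fderiv`-type lemmas used there, or `AnalyticOnNhd`) and periodic under `L` (by `hN`
differentiated in `x`: `ρ δ (Sum.elim (prA x) (prB x + v)) (inr j) = ρ δ x (inr j) + v' j` for all `x ∈ Tot D B`), so
constant (`storus_const`, `S/Torus.lean`). Call it `M_δ(z) j k`. (2) So `w ↦ prB (ρ δ (Sum.elim z w))` is affine:
`prB (ρ δ (Sum.elim z (w + v))) = prB (ρ δ (Sum.elim z w)) + M_δ(z) v` for ALL `v`. For `v ∈ L` this and `hN` give
`M_δ(z) v = v'`, which does not depend on `z`; `L` spans `ℂ^B` over `ℝ`, so `M_δ(z)` does not depend on `z`. This gives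
the second claim (with `mulVec`) and the first one.
(3) `prA ∘ ρ δ = σ δ ∘ prA` on `Tot D B`, so the block `(inl i, inr k)` of the Jacobian vanishes and the block
`(inl i, inl i')` is `Jac (σ δ) (prA x)` (see `jac_det` in `Final.lean`): the determinant is the product
(`Matrix.det_fromBlocks_zero₁₂`). The chain rule gives `M (δ ε) = M δ * M ε` (or use (2)). -/

set_option linter.unusedSectionVars false

open Filter Topology Set Metric

namespace Pool.Agent.H906.BD.S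

variable {A B : Type*} [Fintype A] [Fintype B] [DecidableEq A] [DecidableEq B]
variable {Δ : Type*} [Group Δ]

/-- the inclusion of the fibre direction -/
noncomputable def pfib_in (A B : Type*) [Fintype A] [Fintype B] : (B → ℂ) →L[ℂ] (A ⊕ B → ℂ) :=
  ContinuousLinearMap.pi fun l : A ⊕ B =>
    Sum.elim (fun _ => (0 : (B → ℂ) →L[ℂ] ℂ)) (fun j => ContinuousLinearMap.proj j) l

omit [DecidableEq A] [DecidableEq B] in
theorem pfib_in_apply (v : B → ℂ) :
    pfib_in A B v = (Sum.elim (fun _ : A => (0 : ℂ)) v : A ⊕ B → ℂ) := by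
  funext l
  rcases l with i | j <;> rfl

omit [DecidableEq A] [DecidableEq B] in
theorem pfib_in_add (x : A ⊕ B → ℂ) (v : B → ℂ) :
    (Sum.elim (prA x) (prB x + v) : A ⊕ B → ℂ) = x + pfib_in A B v := by
  rw [pfib_in_apply]
  funext l
  rcases l with i | j
  · show x (Sum.inl i) = x (Sum.inl i) + 0
    rw [add_zero]
  · rfl

omit [DecidableEq A] [DecidableEq B] in
theorem pfib_prA_add (x : A ⊕ B → ℂ) (v : B → ℂ) : prA (x + pfib_in A B v) = prA x := by
  rw [← pfib_in_add]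
  rfl

theorem pfib_in_sum (v : B → ℂ) :
    pfib_in A B v = ∑ k, v k • (Pi.single (Sum.inr k) 1 : A ⊕ B → ℂ) := by
  rw [pfib_in_apply]
  funext l
  rw [Finset.sum_apply]
  rcases l with i | j
  · show (0 : ℂ) = _
    symm
    refine Finset.sum_eq_zero fun k _ => ?_
    simp
  · show v j = _
    rw [Finset.sum_eq_single j]
    · simp
    · intro k _ hk
      have : (Sum.inr j : A ⊕ B) ≠ Sum.inr k := fun h => hk (Sum.inr_injective h).symm
      simp [this]
    · intro h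
      exact absurd (Finset.mem_univ _) h

/-- the derivative in the fibre direction -/
theorem pfib_deriv (f : (A ⊕ B → ℂ) → (A ⊕ B → ℂ)) (x : A ⊕ B → ℂ) (v : B → ℂ) (j : B) :
    fderiv ℂ f x (pfib_in A B v) (Sum.inr j) =
      ∑ k, Jac f x (Sum.inr j) (Sum.inr k) * v k := by
  rw [pfib_in_sum, map_sum, Finset.sum_apply]
  refine Finset.sum_congr rfl fun k _ => ?_
  rw [map_smul, Pi.smul_apply, smul_eq_mul, mul_comm]
  rfl

/-- step 1: the Jacobian is constant along the fibres -/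
theorem pfib_const {D : Set (A → ℂ)} (hD : IsOpen D) {f : (A ⊕ B → ℂ) → (A ⊕ B → ℂ)}
    (hf : DifferentiableOn ℂ f (Tot D B)) {L : AddSubgroup (B → ℂ)} (hL : IsLattice L)
    (hN : ∀ v ∈ L, ∃ v' : B → ℂ, ∀ x ∈ Tot D B,
      prB (f (Sum.elim (prA x) (prB x + v))) = prB (f x) + v') {x : A ⊕ B → ℂ} (hx : x ∈ Tot D B)
    (v : B → ℂ) (j k : B) :
    Jac f (x + pfib_in A B v) (Sum.inr j) (Sum.inr k) = Jac f x (Sum.inr j) (Sum.inr k) := by
  have hU : IsOpen (Tot D B) := isOpen_tot hD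
  have hmem : ∀ w : B → ℂ, x + pfib_in A B w ∈ Tot D B := by
    intro w
    show prA (x + pfib_in A B w) ∈ D
    rw [pfib_prA_add]
    exact hx
  have hg : Differentiable ℂ
      (fun w : B → ℂ => Jac f (x + pfib_in A B w) (Sum.inr j) (Sum.inr k)) := by
    have h1 := hol_fderiv_apply hU hf (w := fun _ => Pi.single (Sum.inr k) 1)
      (differentiableOn_const _)
    have h2 := (differentiableOn_pi.1 h1) (Sum.inr j)
    intro w
    have h3 := h2.differentiableAt (hU.mem_nhds (hmem w))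
    have h4 : DifferentiableAt ℂ (fun w : B → ℂ => x + pfib_in A B w) w :=
      (pfib_in A B).differentiableAt.const_add x
    exact DifferentiableAt.comp w h3 h4
  have hp : ∀ v ∈ L, ∀ w, Jac f (x + pfib_in A B (w + v)) (Sum.inr j) (Sum.inr k) =
      Jac f (x + pfib_in A B w) (Sum.inr j) (Sum.inr k) := by
    intro v hv w
    obtain ⟨v', hv'⟩ := hN v hv
    obtain ⟨y, hy⟩ : ∃ y, y = x + pfib_in A B w := ⟨_, rfl⟩
    have hyT : y ∈ Tot D B := by
      rw [hy]
      exact hmem w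
    have hyv : y + pfib_in A B v ∈ Tot D B := by
      show prA (y + pfib_in A B v) ∈ D
      rw [pfib_prA_add]
      exact hyT
    have e0 : x + pfib_in A B (w + v) = y + pfib_in A B v := by
      rw [hy, map_add, add_assoc]
    rw [e0, ← hy]
    have e1 : HasFDerivAt (fun u => f (u + pfib_in A B v) (Sum.inr j))
        ((ContinuousLinearMap.proj (R := ℂ) (φ := fun _ : A ⊕ B => ℂ) (Sum.inr j)).comp
          (fderiv ℂ f (y + pfib_in A B v))) y := by
      have h1 : HasFDerivAt f (fderiv ℂ f (y + pfib_in A B v)) (y + pfib_in A B v) :=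
        (hf.differentiableAt (hU.mem_nhds hyv)).hasFDerivAt
      have h2 : HasFDerivAt (fun u => f (u + pfib_in A B v))
          (fderiv ℂ f (y + pfib_in A B v)) y := by
        have h3 := h1.comp y ((hasFDerivAt_id (𝕜 := ℂ) y).add_const (pfib_in A B v))
        rwa [ContinuousLinearMap.comp_id] at h3
      exact (hasFDerivAt_pi'.1 h2) (Sum.inr j)
    have e2 : HasFDerivAt (fun u => f u (Sum.inr j) + v' j)
        ((ContinuousLinearMap.proj (R := ℂ) (φ := fun _ : A ⊕ B => ℂ) (Sum.inr j)).comp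
          (fderiv ℂ f y)) y := by
      have h1 : HasFDerivAt f (fderiv ℂ f y) y :=
        (hf.differentiableAt (hU.mem_nhds hyT)).hasFDerivAt
      exact ((hasFDerivAt_pi'.1 h1) (Sum.inr j)).add_const (v' j)
    have e3 : (fun u => f (u + pfib_in A B v) (Sum.inr j)) =ᶠ[𝓝 y]
        fun u => f u (Sum.inr j) + v' j := by
      filter_upwards [hU.mem_nhds hyT] with u hu
      have h1 := congrFun (hv' u hu) j
      rw [pfib_in_add] at h1
      exact h1
    have e4 := e1.unique (e2.congr_of_eventuallyEq e3)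
    have e5 := congrArg (fun T => T (Pi.single (Sum.inr k) 1)) e4
    exact e5
  have h1 : Jac f (x + pfib_in A B v) (Sum.inr j) (Sum.inr k) =
      Jac f (x + pfib_in A B 0) (Sum.inr j) (Sum.inr k) := storus_const hL hg hp v 0
  rw [h1, map_zero, add_zero]

/-- step 2: the action is affine along the fibres -/
theorem pfib_affine {D : Set (A → ℂ)} (hD : IsOpen D) {f : (A ⊕ B → ℂ) → (A ⊕ B → ℂ)}
    (hf : DifferentiableOn ℂ f (Tot D B)) {L : AddSubgroup (B → ℂ)} (hL : IsLattice L)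
    (hN : ∀ v ∈ L, ∃ v' : B → ℂ, ∀ x ∈ Tot D B,
      prB (f (Sum.elim (prA x) (prB x + v))) = prB (f x) + v') {x : A ⊕ B → ℂ} (hx : x ∈ Tot D B)
    (v : B → ℂ) (j : B) :
    f (x + pfib_in A B v) (Sum.inr j) = f x (Sum.inr j) +
      ∑ k, Jac f x (Sum.inr j) (Sum.inr k) * v k := by
  have hU : IsOpen (Tot D B) := isOpen_tot hD
  have hmem : ∀ w : B → ℂ, x + pfib_in A B w ∈ Tot D B := by
    intro w
    show prA (x + pfib_in A B w) ∈ D
    rw [pfib_prA_add]
    exact hx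
  obtain ⟨ℓ, hℓ⟩ : ∃ ℓ : (B → ℂ) →L[ℂ] ℂ, ∀ u, ℓ u = ∑ k, Jac f x (Sum.inr j) (Sum.inr k) * u k := by
    refine ⟨(ContinuousLinearMap.proj (R := ℂ) (φ := fun _ : A ⊕ B => ℂ) (Sum.inr j)).comp
      ((fderiv ℂ f x).comp (pfib_in A B)), fun u => ?_⟩
    exact pfib_deriv f x u j
  have hder : ∀ w : B → ℂ, HasFDerivAt
      (fun w : B → ℂ => f (x + pfib_in A B w) (Sum.inr j) - ℓ w) (0 : (B → ℂ) →L[ℂ] ℂ) w := by
    intro w
    have h1 : HasFDerivAt f (fderiv ℂ f (x + pfib_in A B w)) (x + pfib_in A B w) :=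
      (hf.differentiableAt (hU.mem_nhds (hmem w))).hasFDerivAt
    have h2 : HasFDerivAt (fun w : B → ℂ => f (x + pfib_in A B w))
        ((fderiv ℂ f (x + pfib_in A B w)).comp (pfib_in A B)) w :=
      h1.comp w ((pfib_in A B).hasFDerivAt.const_add x)
    have h3 := ((hasFDerivAt_pi'.1 h2) (Sum.inr j)).sub ℓ.hasFDerivAt
    have h4 : (ContinuousLinearMap.proj (R := ℂ) (φ := fun _ : A ⊕ B => ℂ) (Sum.inr j)).comp
        ((fderiv ℂ f (x + pfib_in A B w)).comp (pfib_in A B)) - ℓ = 0 := by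
      ext1 u
      show fderiv ℂ f (x + pfib_in A B w) (pfib_in A B u) (Sum.inr j) - ℓ u = 0
      rw [pfib_deriv, hℓ, sub_eq_zero]
      refine Finset.sum_congr rfl fun k _ => ?_
      rw [pfib_const hD hf hL hN hx]
    rw [h4] at h3
    exact h3
  have h1 := is_const_of_fderiv_eq_zero (𝕜 := ℂ)
    (f := fun w : B → ℂ => f (x + pfib_in A B w) (Sum.inr j) - ℓ w)
    (fun w => (hder w).differentiableAt) (fun w => (hder w).fderiv) v 0
  simp only [map_zero, add_zero, sub_zero] at h1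
  rw [← hℓ, ← h1]
  ring

/-- step 3: the linear part does not depend on the base point -/
theorem pfib_indep {D : Set (A → ℂ)} (hD : IsOpen D) {f : (A ⊕ B → ℂ) → (A ⊕ B → ℂ)}
    (hf : DifferentiableOn ℂ f (Tot D B)) {L : AddSubgroup (B → ℂ)} (hL : IsLattice L)
    (hN : ∀ v ∈ L, ∃ v' : B → ℂ, ∀ x ∈ Tot D B,
      prB (f (Sum.elim (prA x) (prB x + v))) = prB (f x) + v') {x y : A ⊕ B → ℂ}
    (hx : x ∈ Tot D B) (hy : y ∈ Tot D B) (j k : B) :
    Jac f x (Sum.inr j) (Sum.inr k) = Jac f y (Sum.inr j) (Sum.inr k) := by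
  obtain ⟨ℓ, hℓ⟩ : ∃ ℓ : (A ⊕ B → ℂ) → (B → ℂ) →ₗ[ℝ] ℂ,
      ∀ x u, ℓ x u = ∑ k, Jac f x (Sum.inr j) (Sum.inr k) * u k := by
    refine ⟨fun x => (((ContinuousLinearMap.proj (R := ℂ) (φ := fun _ : A ⊕ B => ℂ)
      (Sum.inr j)).comp ((fderiv ℂ f x).comp (pfib_in A B))).restrictScalars ℝ :
        (B → ℂ) →L[ℝ] ℂ).toLinearMap, fun x u => ?_⟩
    exact pfib_deriv f x u j
  have h1 : ∀ v ∈ L, ℓ x v = ℓ y v := by
    intro v hv
    obtain ⟨v', hv'⟩ := hN v hv
    have e1 := congrFun (hv' x hx) j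
    have e2 := congrFun (hv' y hy) j
    rw [pfib_in_add] at e1 e2
    have e3 : f (x + pfib_in A B v) (Sum.inr j) = f x (Sum.inr j) + v' j := e1
    have e4 : f (y + pfib_in A B v) (Sum.inr j) = f y (Sum.inr j) + v' j := e2
    rw [pfib_affine hD hf hL hN hx] at e3
    rw [pfib_affine hD hf hL hN hy] at e4
    rw [hℓ, hℓ, add_left_cancel e3, add_left_cancel e4]
  have h2 : ∀ v : B → ℂ, ℓ x v = ℓ y v := by
    have h3 : Submodule.span ℝ (L : Set (B → ℂ)) ≤ LinearMap.eqLocus (ℓ x) (ℓ y) := by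
      rw [Submodule.span_le]
      intro v hv
      exact h1 v hv
    rw [hL.span] at h3
    intro v
    exact h3 (Submodule.mem_top (x := v))
  have h3 := h2 (Pi.single k 1)
  rw [hℓ, hℓ, Finset.sum_eq_single k, Finset.sum_eq_single k] at h3
  · simpa using h3
  · intro l _ hl
    rw [Pi.single_eq_of_ne hl, mul_zero]
  · intro h
    exact absurd (Finset.mem_univ _) h
  · intro l _ hl
    rw [Pi.single_eq_of_ne hl, mul_zero]
  · intro h
    exact absurd (Finset.mem_univ _) h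

theorem fib_linear {D : Set (A → ℂ)} (hD : IsOpen D) (hc : IsPreconnected D) (hne : D.Nonempty)
    {ρ : Δ → (A ⊕ B → ℂ) → (A ⊕ B → ℂ)} (hρ : HolAct (Tot D B) ρ)
    {σ : Δ → (A → ℂ) → (A → ℂ)} (hσ : HolAct D σ)
    (hρσ : ∀ δ, ∀ x ∈ Tot D B, prA (ρ δ x) = σ δ (prA x))
    {L : AddSubgroup (B → ℂ)} (hL : IsLattice L)
    (hN : ∀ δ, ∀ v ∈ L, ∃ v' : B → ℂ, ∀ x ∈ Tot D B,
      prB (ρ δ (Sum.elim (prA x) (prB x + v))) = prB (ρ δ x) + v') :
    ∃ M : Δ → Matrix B B ℂ,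
      (∀ δ, ∀ x ∈ Tot D B, ∀ j k, Jac (ρ δ) x (Sum.inr j) (Sum.inr k) = M δ j k) ∧
      (∀ δ, ∀ x ∈ Tot D B, ∀ v : B → ℂ,
        prB (ρ δ (Sum.elim (prA x) (prB x + v))) = prB (ρ δ x) + (M δ).mulVec v) ∧
      (∀ δ ε, M (δ * ε) = M δ * M ε) ∧
      ∀ δ, ∀ x ∈ Tot D B, (Jac (ρ δ) x).det = (Jac (σ δ) (prA x)).det * (M δ).det := by
  obtain ⟨z₀, hz₀⟩ := hne
  obtain ⟨x₀, hx₀e⟩ : ∃ x₀ : A ⊕ B → ℂ, x₀ = Sum.elim z₀ 0 := ⟨_, rfl⟩
  have hx₀ : x₀ ∈ Tot D B := by
    rw [hx₀e]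
    exact hz₀
  have hU : IsOpen (Tot D B) := isOpen_tot hD
  obtain ⟨M, hM⟩ : ∃ M : Δ → Matrix B B ℂ,
      ∀ δ j k, M δ j k = Jac (ρ δ) x₀ (Sum.inr j) (Sum.inr k) :=
    ⟨fun δ => Matrix.of fun j k => Jac (ρ δ) x₀ (Sum.inr j) (Sum.inr k), fun _ _ _ => rfl⟩
  have c1 : ∀ δ, ∀ x ∈ Tot D B, ∀ j k, Jac (ρ δ) x (Sum.inr j) (Sum.inr k) = M δ j k := by
    intro δ x hx j k
    rw [hM]
    exact pfib_indep hD (hρ.hol δ) hL (hN δ) hx hx₀ j k
  have c2 : ∀ δ, ∀ x ∈ Tot D B, ∀ v : B → ℂ,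
      prB (ρ δ (Sum.elim (prA x) (prB x + v))) = prB (ρ δ x) + (M δ).mulVec v := by
    intro δ x hx v
    rw [pfib_in_add]
    funext j
    have h1 := pfib_affine hD (hρ.hol δ) hL (hN δ) hx v j
    show ρ δ (x + pfib_in A B v) (Sum.inr j) = ρ δ x (Sum.inr j) + ∑ k, M δ j k * v k
    rw [h1]
    congr 1
    exact Finset.sum_congr rfl fun k _ => by rw [c1 δ x hx]
  refine ⟨M, c1, c2, ?_, ?_⟩
  · intro δ ε
    have h1 : ∀ v : B → ℂ, (M (δ * ε)).mulVec v = (M δ * M ε).mulVec v := by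
      intro v
      obtain ⟨x₁, hx₁⟩ : ∃ x₁ : A ⊕ B → ℂ, x₁ = Sum.elim (prA x₀) (prB x₀ + v) := ⟨_, rfl⟩
      have hx₁T : x₁ ∈ Tot D B := by
        rw [hx₁]
        exact hx₀
      have e1 := c2 (δ * ε) x₀ hx₀ v
      rw [← hx₁, hρ.mul δ ε x₁ hx₁T, hρ.mul δ ε x₀ hx₀] at e1
      have e2 := c2 ε x₀ hx₀ v
      rw [← hx₁] at e2
      have e3 : prA (ρ ε x₁) = prA (ρ ε x₀) := by
        rw [hρσ ε x₁ hx₁T, hρσ ε x₀ hx₀, hx₁, prA_elim]
      have e4 : ρ ε x₁ = Sum.elim (prA (ρ ε x₀)) (prB (ρ ε x₀) + (M ε).mulVec v) := by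
        rw [← e2, ← e3, elim_pr]
      rw [e4, c2 δ (ρ ε x₀) (hρ.maps ε x₀ hx₀)] at e1
      rw [← Matrix.mulVec_mulVec]
      exact (add_left_cancel e1).symm
    exact Matrix.ext_of_mulVec_single fun i => h1 _
  · intro δ x hx
    have hd : DifferentiableAt ℂ (ρ δ) x := (hρ.hol δ).differentiableAt (hU.mem_nhds hx)
    have hσ' : HasFDerivAt (σ δ) (fderiv ℂ (σ δ) (prA x)) (prA x) :=
      ((hσ.hol δ).differentiableAt (hD.mem_nhds hx)).hasFDerivAt
    have h1 : ∀ (v : A ⊕ B → ℂ) (i : A),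
        fderiv ℂ (ρ δ) x v (Sum.inl i) = fderiv ℂ (σ δ) (prA x) (prA v) i := by
      intro v i
      have e1 : HasFDerivAt (fun y => ρ δ y (Sum.inl i))
          ((ContinuousLinearMap.proj (Sum.inl i)).comp (fderiv ℂ (ρ δ) x)) x :=
        (hasFDerivAt_pi'.1 hd.hasFDerivAt) (Sum.inl i)
      have e2 : HasFDerivAt (fun y => σ δ (prA y) i)
          ((ContinuousLinearMap.proj i).comp ((fderiv ℂ (σ δ) (prA x)).comp prAL)) x :=
        (hasFDerivAt_pi'.1 (hσ'.comp x (prAL (A := A) (B := B)).hasFDerivAt)) i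
      have e3 : (fun y => σ δ (prA y) i) =ᶠ[𝓝 x] fun y => ρ δ y (Sum.inl i) := by
        filter_upwards [hU.mem_nhds hx] with y hy
        rw [← hρσ δ y hy]
        rfl
      have e4 := e1.unique (e2.congr_of_eventuallyEq e3.symm)
      have e5 := congrArg (fun T => T v) e4
      exact e5
    have h3 : Jac (ρ δ) x = Matrix.fromBlocks (Jac (σ δ) (prA x)) 0
        (Matrix.of fun j i => Jac (ρ δ) x (Sum.inr j) (Sum.inl i)) (M δ) := by
      ext k l
      rcases k with i | j <;> rcases l with i' | j'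
      · show fderiv ℂ (ρ δ) x (Pi.single (Sum.inl i') 1) (Sum.inl i) = _
        rw [h1, Matrix.fromBlocks_apply₁₁]
        have e : prA (Pi.single (Sum.inl i') (1 : ℂ) : A ⊕ B → ℂ) = Pi.single i' 1 := by
          funext l
          simp [prA, Pi.single_apply]
        rw [e]
        rfl
      · show fderiv ℂ (ρ δ) x (Pi.single (Sum.inr j') 1) (Sum.inl i) = _
        rw [h1, Matrix.fromBlocks_apply₁₂]
        have e : prA (Pi.single (Sum.inr j') (1 : ℂ) : A ⊕ B → ℂ) = 0 := by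
          funext l
          simp [prA]
        rw [e, map_zero]
        rfl
      · rw [Matrix.fromBlocks_apply₂₁]
        rfl
      · rw [Matrix.fromBlocks_apply₂₂]
        exact c1 δ x hx j j'
    rw [h3, Matrix.det_fromBlocks_zero₁₂]

end Pool.Agent.H906.BD.S
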