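import Pool.Agent.H906.BD.Nonv
import Pool.Agent.H906.BD.S.Torus

/-! # P05 Gen: one weight for all points; functions on the preimage of an open set

(1) `uniform_weight`: an automorphy factor `c γ z` for which at every point some weight `l` has an automorphic form
which does not vanish there has one weight `l` which works at all points. Proof: for `z ∈ K` let `l_z`, `P_z` be as in
`hpt`; `P_z` is nonzero on a neighbourhood of `z` (continuity on the open set `D`); finitely many such neighbourhoods cover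
the compact set `K`; let `l` be the product (or `lcm`) of the finitely many `l_z` and replace `P_z` by `P_z ^ (l / l_z)`. For
`z ∈ D` choose `γ` with `σ γ z ∈ K` and `P` of weight `l` with `P (σ γ z) ≠ 0`; then `P z = P (σ γ z) * c γ z ^ l ≠ 0`, as
`c γ z ≠ 0`.
(2) `pull_back`: `L` is a lattice all of whose elements are translations of the fibres by elements of `Δ`. An
invariant holomorphic function `G` on `{x | prA x ∈ U}` is the pull-back of a holomorphic function on `U`, namely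
`φ z = G (Sum.elim z 0)`: for `z ∈ U` the function `w ↦ G (Sum.elim z w)` is entire and periodic under `L`, so constant
(`storus_const`). -/

set_option linter.unusedSectionVars false

open Filter Topology Set Metric

namespace Pool.Agent.H906.BD.S

variable {A B : Type*} [Fintype A] [Fintype B] [DecidableEq A] [DecidableEq B]
variable {Δ : Type*} [Group Δ]

theorem pgen_local {D : Set (A → ℂ)} (hD : IsOpen D) {σ : Δ → (A → ℂ) → (A → ℂ)}
    {K : Set (A → ℂ)} (hKD : K ⊆ D) (hK : IsCompact K) {c : Δ → (A → ℂ) → ℂ}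
    (hpt : ∀ z ∈ D, ∃ l, 0 < l ∧ ∃ P : (A → ℂ) → ℂ, DifferentiableOn ℂ P D ∧
      (∀ γ, ∀ z ∈ D, P (σ γ z) * c γ z ^ l = P z) ∧ P z ≠ 0) :
    ∃ l, 0 < l ∧ ∀ z ∈ K, ∃ P : (A → ℂ) → ℂ, DifferentiableOn ℂ P D ∧
      (∀ γ, ∀ z ∈ D, P (σ γ z) * c γ z ^ l = P z) ∧ P z ≠ 0 := by
  refine hK.induction_on (p := fun S => ∃ l, 0 < l ∧ ∀ z ∈ S, ∃ P : (A → ℂ) → ℂ,
    DifferentiableOn ℂ P D ∧ (∀ γ, ∀ z ∈ D, P (σ γ z) * c γ z ^ l = P z) ∧ P z ≠ 0) ?_ ?_ ?_ ?_
  · exact ⟨1, one_pos, fun z hz => hz.elim⟩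
  · rintro S T hST ⟨l, hl, h⟩
    exact ⟨l, hl, fun z hz => h z (hST hz)⟩
  · rintro S T ⟨l, hl, h⟩ ⟨m, hm, h'⟩
    refine ⟨l * m, Nat.mul_pos hl hm, fun z hz => ?_⟩
    rcases hz with hz | hz
    · obtain ⟨P, hP, hPc, hPz⟩ := h z hz
      refine ⟨fun w => P w ^ m, hP.pow m, fun γ w hw => ?_, pow_ne_zero _ hPz⟩
      beta_reduce
      rw [pow_mul, ← mul_pow, hPc γ w hw]
    · obtain ⟨P, hP, hPc, hPz⟩ := h' z hz
      refine ⟨fun w => P w ^ l, hP.pow l, fun γ w hw => ?_, pow_ne_zero _ hPz⟩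
      beta_reduce
      rw [mul_comm l m, pow_mul, ← mul_pow, hPc γ w hw]
  · intro z hz
    obtain ⟨l, hl, P, hP, hPc, hPz⟩ := hpt z (hKD hz)
    have hDz : D ∈ 𝓝 z := hD.mem_nhds (hKD hz)
    have h1 : ContinuousAt P z := hP.continuousOn.continuousAt hDz
    refine ⟨{w | P w ≠ 0}, mem_nhdsWithin_of_mem_nhds (h1.eventually_ne hPz), l, hl,
      fun w hw => ⟨P, hP, hPc, hw⟩⟩

theorem uniform_weight {D : Set (A → ℂ)} (hD : IsOpen D) {σ : Δ → (A → ℂ) → (A → ℂ)}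
    (hσ : HolAct D σ) {K : Set (A → ℂ)} (hKD : K ⊆ D) (hK : IsCompact K)
    (hcov : ∀ z ∈ D, ∃ γ, σ γ z ∈ K) {c : Δ → (A → ℂ) → ℂ} (hc0 : ∀ γ, ∀ z ∈ D, c γ z ≠ 0)
    (hpt : ∀ z ∈ D, ∃ l, 0 < l ∧ ∃ P : (A → ℂ) → ℂ, DifferentiableOn ℂ P D ∧
      (∀ γ, ∀ z ∈ D, P (σ γ z) * c γ z ^ l = P z) ∧ P z ≠ 0) :
    ∃ l, 0 < l ∧ ∀ z ∈ D, ∃ P : (A → ℂ) → ℂ, DifferentiableOn ℂ P D ∧
      (∀ γ, ∀ z ∈ D, P (σ γ z) * c γ z ^ l = P z) ∧ P z ≠ 0 := by
  obtain ⟨l, hl, h⟩ := pgen_local hD hKD hK hpt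
  refine ⟨l, hl, fun z hz => ?_⟩
  obtain ⟨γ, hγ⟩ := hcov z hz
  obtain ⟨P, hP, hPc, hPz⟩ := h _ hγ
  refine ⟨P, hP, hPc, ?_⟩
  rw [← hPc γ z hz]
  exact mul_ne_zero hPz (pow_ne_zero _ (hc0 γ z hz))

theorem pull_back {D : Set (A → ℂ)} {ρ : Δ → (A ⊕ B → ℂ) → (A ⊕ B → ℂ)}
    {L : AddSubgroup (B → ℂ)} (hL : IsLattice L)
    (hLt : ∀ v ∈ L, ∃ δ, ∀ x ∈ Tot D B, ρ δ x = Sum.elim (prA x) (prB x + v))
    {U : Set (A → ℂ)} (hU : IsOpen U) (hUD : U ⊆ D) {G : (A ⊕ B → ℂ) → ℂ}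
    (hG : DifferentiableOn ℂ G {x | prA x ∈ U})
    (hinv : ∀ δ, ∀ x, prA x ∈ U → G (ρ δ x) = G x) :
    ∃ φ : (A → ℂ) → ℂ, DifferentiableOn ℂ φ U ∧ ∀ x, prA x ∈ U → G x = φ (prA x) := by
  have hpr : ∀ (z : A → ℂ) (w : B → ℂ), prA (Sum.elim z w) = z := fun z w => rfl
  have hprB : ∀ (z : A → ℂ) (w : B → ℂ), prB (Sum.elim z w) = w := fun z w => rfl
  have heta : ∀ x : A ⊕ B → ℂ, Sum.elim (prA x) (prB x) = x := by
    intro x
    funext i
    cases i <;> rfl
  refine ⟨fun z => G (Sum.elim z 0), ?_, fun x hx => ?_⟩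
  · refine hG.comp (t := {x | prA x ∈ U}) (g := G) (f := fun z : A → ℂ => (Sum.elim z 0 : A ⊕ B → ℂ)) ?_ ?_
    · refine Differentiable.differentiableOn ?_
      refine differentiable_pi.2 fun i => ?_
      cases i with
      | inl i => exact differentiable_pi.1 differentiable_id i
      | inr i => exact differentiable_const _
    · intro z hz
      exact hz
  · have hg : Differentiable ℂ fun w : B → ℂ => G (Sum.elim (prA x) w) := by
      rw [← differentiableOn_univ]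
      refine hG.comp (t := {x | prA x ∈ U}) (g := G)
        (f := fun w : B → ℂ => (Sum.elim (prA x) w : A ⊕ B → ℂ)) ?_ ?_
      · refine Differentiable.differentiableOn ?_
        refine differentiable_pi.2 fun i => ?_
        cases i with
        | inl i => exact differentiable_const _
        | inr i => exact differentiable_pi.1 differentiable_id i
      · intro w _
        exact hx
    have h1 := storus_const hL hg (fun v hv w => by
      obtain ⟨δ, hδ⟩ := hLt v hv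
      have h2 := hδ (Sum.elim (prA x) w) (hUD hx)
      rw [hpr, hprB] at h2
      rw [← h2]
      exact hinv δ _ hx) (prB x) 0
    rw [heta] at h1
    exact h1

end Pool.Agent.H906.BD.S
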