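import Pool.Agent.H906.BD.S.Main

/-! # P02 Norm: a normalised lattice of translations, and the kernel of the action on `D`

Proof (follow `structure_thm` in `S/Main.lean` with `Δ0` replaced by a NORMAL subgroup of finite index). Replace `Δ0` by
`N0 = Δ0.normalCore` (finite index: `Subgroup.finiteIndex_normalCore` or instance; contained in `Δ0`, so `hs1`, `hs2` hold
on it). As in `structure_thm`: `split_structure` gives `σ0, a, b` for `N0`, `disc`, `pd_of_disc`, `base_action` gives `σ`,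
`pd_extend` extends the properly discontinuous action, and `exists_lattice` gives `L1` and `m0` with
`a γ j ^ m0 = 1` for `γ ∈ N0` acting trivially on `D`; elements of `N0` acting trivially on `D` with `a γ = 1` are
translations (`htr` in `structure_thm`).
Put `L = m0 • L1 = {m0 • u | u ∈ L1}` (`AddSubgroup.map` of multiplication by `m0`): again `IsLattice`
(finite balls: `‖m0 • u‖ = m0 ‖u‖ ≥ ‖u‖`; span: multiplication by `m0 ≠ 0` is an `ℝ`-linear equivalence).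
Third claim: for `v = m0 • u`, `u ∈ L1`, let `γ ∈ N0` be the translation by `u`. `ε = δ γ δ⁻¹ ∈ N0` (normal), it acts
trivially on `D`, so `a (ε ^ m0) = 1` and `ε ^ m0 = δ γ ^ m0 δ⁻¹` is the translation by some `v'`. `γ ^ m0` is the
translation by `v`. From `ε ^ m0 * δ = δ * γ ^ m0`: `ρ δ (x + v) = ρ δ x + v'` in the `B`-directions, for all `x ∈ Tot D B`.
Fourth claim: let `k` be positive with `δ ^ k ∈ N0` for all `δ` (e.g. `N0.index`, `Subgroup.pow_index_mem`, `N0` normal; or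
`Subgroup.exists_pow_mem_of_index_ne_zero`). If `δ` acts trivially on `D` then so does `δ ^ k ∈ N0`, and
`(δ ^ k) ^ m0` has `a = 1`, so it is a translation; `m = k * m0`. -/

set_option linter.unusedSectionVars false

open Filter Topology Set Metric
open scoped ComplexOrder

namespace Pool.Agent.H906.BD.S

variable {A B : Type*} [Fintype A] [Fintype B] [DecidableEq A] [DecidableEq B]

/-- iterating a translation -/
theorem pnorm_trans_pow {Δ : Type*} [Group Δ] {D : Set (A → ℂ)}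
    {ρ : Δ → (A ⊕ B → ℂ) → (A ⊕ B → ℂ)} (hρ : HolAct (Tot D B) ρ) {γ : Δ} {u : B → ℂ}
    (h : ∀ x ∈ Tot D B, ρ γ x = Sum.elim (prA x) (prB x + u)) (n : ℕ) :
    ∀ x ∈ Tot D B, ρ (γ ^ n) x = Sum.elim (prA x) (prB x + n • u) := by
  induction n with
  | zero =>
    intro x hx
    rw [pow_zero, hρ.one x hx, zero_nsmul, add_zero]
    funext k
    rcases k with i | j
    · rfl
    · rfl
  | succ n ih =>
    intro x hx
    have hx1 : ρ γ x ∈ Tot D B := hρ.maps γ x hx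
    rw [pow_succ, hρ.mul _ _ x hx, ih _ hx1, h x hx]
    have e1 : prA (Sum.elim (prA x) (prB x + u) : A ⊕ B → ℂ) = prA x := rfl
    have e2 : prB (Sum.elim (prA x) (prB x + u) : A ⊕ B → ℂ) = prB x + u := rfl
    rw [e1, e2, succ_nsmul, add_assoc, add_comm u]

/-- multiplying a lattice by a positive integer -/
theorem pnorm_lattice {L : AddSubgroup (B → ℂ)} (hL : IsLattice L) {m : ℕ} (hm : 0 < m) :
    IsLattice (L.map (nsmulAddMonoidHom m)) := by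
  have hm1 : (1 : ℝ) ≤ m := by exact_mod_cast hm
  have hm0 : (m : ℝ) ≠ 0 := by positivity
  refine ⟨fun r => ?_, ?_⟩
  · refine ((hL.discrete r).image (fun v => m • v)).subset ?_
    rintro v ⟨⟨u, hu, rfl⟩, hv⟩
    have hv' : ‖m • u‖ ≤ r := hv
    rw [← Nat.cast_smul_eq_nsmul ℝ, norm_smul, Real.norm_natCast] at hv'
    refine ⟨u, ⟨hu, ?_⟩, rfl⟩
    have h0 := norm_nonneg u
    nlinarith [mul_le_mul_of_nonneg_right hm1 h0]
  · rw [eq_top_iff, ← hL.span, Submodule.span_le]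
    intro u hu
    have h1 : m • u ∈ Submodule.span ℝ ((L.map (nsmulAddMonoidHom m) : AddSubgroup (B → ℂ)) : Set (B → ℂ)) :=
      Submodule.subset_span ⟨u, hu, rfl⟩
    have h2 := Submodule.smul_mem _ (m : ℝ)⁻¹ h1
    rw [← Nat.cast_smul_eq_nsmul ℝ, smul_smul, inv_mul_cancel₀ hm0, one_smul] at h2
    exact h2

/-- powers of elements which act trivially act trivially -/
theorem pnorm_triv_pow {Δ : Type*} [Group Δ] {D : Set (A → ℂ)} {σ : Δ → (A → ℂ) → (A → ℂ)}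
    (hσ : HolAct D σ) {δ : Δ} (h : Triv D σ δ) (n : ℕ) : Triv D σ (δ ^ n) := by
  induction n with
  | zero =>
    intro z hz
    rw [pow_zero, hσ.one z hz]
  | succ n ih =>
    intro z hz
    rw [pow_succ, hσ.mul _ _ z hz, h z hz, ih z hz]

/-- the multiplicative characters of powers -/
theorem pnorm_a_pow {Γ : Type*} [Group Γ] {a : Γ → B → ℂ}
    (ha : ∀ γ δ j, a (γ * δ) j = a γ j * a δ j) (ha0 : ∀ γ j, a γ j ≠ 0) (γ : Γ) (n : ℕ) (j : B) :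
    a (γ ^ n) j = a γ j ^ n := by
  induction n with
  | zero =>
    rw [pow_zero, pow_zero]
    have h1 := ha 1 1 j
    rw [mul_one] at h1
    exact (mul_eq_left₀ (ha0 1 j)).1 h1.symm
  | succ n ih => rw [pow_succ, ha, ih, pow_succ]

/-- the statement for a normal subgroup of finite index -/
theorem pnorm_core {Δ : Type*} [Group Δ] {D : Set (A → ℂ)} (hD : IsOpen D)
    (hc : IsPreconnected D) (hne : D.Nonempty) {R : ℝ} (hR : ∀ z ∈ D, ‖z‖ ≤ R)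
    {ρ : Δ → (A ⊕ B → ℂ) → (A ⊕ B → ℂ)} (hρ : HolAct (Tot D B) ρ) (hpd : PD (Tot D B) ρ)
    (hcc : CC (Tot D B) ρ) {Δ0 : Subgroup Δ} (hfi : Δ0.FiniteIndex) (hnorm : Δ0.Normal)
    (hs1 : ∀ γ ∈ Δ0, ∀ x ∈ Tot D B, ∀ j i, Jac (ρ γ) x (Sum.inr j) (Sum.inl i) = 0)
    (hs2 : ∀ γ ∈ Δ0, ∀ x ∈ Tot D B, ∀ j j', j ≠ j' →
      Jac (ρ γ) x (Sum.inr j) (Sum.inr j') = 0)
    {g : (A ⊕ B → ℂ) → Matrix (A ⊕ B) (A ⊕ B) ℂ} (hg : Kahler (Tot D B) g)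
    (hinv : InvForm (Tot D B) ρ g) :
    ∃ σ : Δ → (A → ℂ) → (A → ℂ), HolAct D σ ∧
      (∀ δ, ∀ x ∈ Tot D B, prA (ρ δ x) = σ δ (prA x)) ∧
      (∀ K ⊆ D, IsCompact K → ∃ T : Finset Δ, ∀ γ, (∃ z ∈ K, σ γ z ∈ K) →
        ∃ t ∈ T, ∀ z ∈ D, σ γ z = σ t z) ∧
      ∃ L : AddSubgroup (B → ℂ), IsLattice L ∧
        (∀ v ∈ L, ∃ δ, ∀ x ∈ Tot D B, ρ δ x = Sum.elim (prA x) (prB x + v)) ∧
        (∀ δ, ∀ v ∈ L, ∃ v' : B → ℂ, ∀ x ∈ Tot D B,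
          prB (ρ δ (Sum.elim (prA x) (prB x + v))) = prB (ρ δ x) + v') ∧
        ∃ m : ℕ, 0 < m ∧ ∀ δ, Triv D σ δ → ∃ v : B → ℂ, ∀ x ∈ Tot D B,
          ρ (δ ^ m) x = Sum.elim (prA x) (prB x + v) := by
  have hρ0 : HolAct (Tot D B) (fun δ : Δ0 => ρ δ) :=
    ⟨fun γ => hρ.maps γ, hρ.one, fun γ δ => hρ.mul γ δ, fun γ => hρ.hol γ⟩
  have hpd0 : PD (Tot D B) (fun δ : Δ0 => ρ δ) := by
    intro K hK hKc
    exact (hpd K hK hKc).preimage (f := fun δ : Δ0 => (δ : Δ)) Subtype.val_injective.injOn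
  have hcc0 : CC (Tot D B) (fun δ : Δ0 => ρ δ) := by
    obtain ⟨K, hK, hKc, hcov⟩ := hcc
    have := hfi
    refine ⟨⋃ q : Δ ⧸ Δ0, ρ (q.out)⁻¹ '' K, ?_, ?_, ?_⟩
    · refine Set.iUnion_subset fun q => ?_
      rintro _ ⟨x, hx, rfl⟩
      exact hρ.maps _ x (hK hx)
    · exact isCompact_iUnion fun q => hKc.image_of_continuousOn
        (((hρ.hol _).continuousOn).mono hK)
    · intro x hx
      obtain ⟨δ, hδ⟩ := hcov x hx
      have h1 : ((δ : Δ ⧸ Δ0).out)⁻¹ * δ ∈ Δ0 := by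
        rw [← QuotientGroup.eq]; simp
      refine ⟨⟨_, h1⟩, ?_⟩
      show ρ (((δ : Δ ⧸ Δ0).out)⁻¹ * δ) x ∈ _
      rw [hρ.mul _ _ x hx]
      exact Set.mem_iUnion.2 ⟨(δ : Δ ⧸ Δ0), ⟨_, hδ, rfl⟩⟩
  have hinv0 : InvForm (Tot D B) (fun δ : Δ0 => ρ δ) g := fun γ => hinv γ
  obtain ⟨σ0, a, b, h, ha, ha0⟩ := split_structure hD hc hne hR hρ0
    (fun γ => hs1 γ γ.2) (fun γ => hs2 γ γ.2)
  have hdisc := disc hD hc hne hR h ha ha0 hpd0 hcc0 hg hinv0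
  have hccD : ∃ K ⊆ D, IsCompact K ∧ ∀ z ∈ D, ∃ γ, σ0 γ z ∈ K := by
    obtain ⟨K, hK, hKc, hcov⟩ := hcc0
    refine ⟨prA '' K, ?_, hKc.image continuous_prA, fun z hz => ?_⟩
    · rintro _ ⟨y, hy, rfl⟩
      exact hK hy
    · obtain ⟨γ, hγ⟩ := hcov (Sum.elim z 0) hz
      refine ⟨γ, ρ γ (Sum.elim z 0), hγ, ?_⟩
      rw [h.fst γ _ hz]
      rfl
  have hpdD : ∀ K ⊆ D, IsCompact K → ∃ T : Finset Δ0, ∀ γ, (∃ z ∈ K, σ0 γ z ∈ K) →
      ∃ t ∈ T, ∀ z ∈ D, σ0 γ z = σ0 t z := fun K hK hKc =>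
    pd_of_disc hD hc hR h.base hccD hdisc hK hKc
  obtain ⟨σ, hσ, hρσ⟩ := base_action hD hR hρ
  have hσσ : ∀ γ : Δ0, ∀ z ∈ D, σ γ z = σ0 γ z := by
    intro γ z hz
    have hx : (Sum.elim z 0 : A ⊕ B → ℂ) ∈ Tot D B := hz
    have h1 := hρσ γ _ hx
    rw [h.fst γ _ hx] at h1
    exact h1.symm
  have hpd1 := pd_extend hD hσ hfi fun K hK hKc => by
    obtain ⟨T, hT⟩ := hpdD K hK hKc
    refine ⟨T.map (Function.Embedding.subtype _), ?_⟩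
    rintro γ hγ ⟨z, hz, hz'⟩
    obtain ⟨t, ht, htt⟩ := hT ⟨γ, hγ⟩ ⟨z, hz, by rw [← hσσ ⟨γ, hγ⟩ z (hK hz)]; exact hz'⟩
    refine ⟨t, Finset.mem_map.2 ⟨t, ht, rfl⟩, fun z hz => ?_⟩
    rw [hσσ t z hz, ← htt z hz, ← hσσ ⟨γ, hγ⟩ z hz]
  obtain ⟨⟨L, hL, hLb⟩, m, hm, hm1⟩ := exists_lattice hD hne h ha ha0 hpd0 hcc0 hg hinv0 hpdD
  have htr : ∀ γ : Δ0, Triv D σ0 γ → (∀ j, a γ j = 1) → ∀ x ∈ Tot D B,
      ρ γ x = Sum.elim (prA x) (prB x + b γ) := by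
    intro γ h1 h2 x hx
    funext k
    rcases k with i | j
    · have h3 := congrFun (h.fst γ x hx) i
      rw [h1 _ hx] at h3
      exact h3
    · have h3 := h.snd γ x hx j
      rw [h2 j, one_mul] at h3
      exact h3
  -- `m`-th powers of elements of `Δ0` which act trivially on `D` are translations
  have htm : ∀ ε (hε : ε ∈ Δ0), Triv D σ ε → ∃ w : B → ℂ, ∀ x ∈ Tot D B,
      ρ (ε ^ m) x = Sum.elim (prA x) (prB x + w) := by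
    intro ε hε htε
    have h0 : Triv D σ0 ⟨ε, hε⟩ := by
      intro z hz
      rw [← hσσ ⟨ε, hε⟩ z hz]
      exact htε z hz
    have h1 : Triv D σ0 ((⟨ε, hε⟩ : Δ0) ^ m) := pnorm_triv_pow h.base h0 m
    have h2 : ∀ j, a ((⟨ε, hε⟩ : Δ0) ^ m) j = 1 := by
      intro j
      rw [pnorm_a_pow ha ha0]
      exact hm1 _ h0 j
    exact ⟨b ((⟨ε, hε⟩ : Δ0) ^ m), fun x hx => htr _ h1 h2 x hx⟩
  -- the translations of the lattice `L`
  have hLtr : ∀ u ∈ L, ∃ γ ∈ Δ0, Triv D σ γ ∧ ∀ x ∈ Tot D B,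
      ρ γ x = Sum.elim (prA x) (prB x + u) := by
    intro u hu
    obtain ⟨γ, h1, h2, h3⟩ := hLb u hu
    refine ⟨γ, γ.2, fun z hz => ?_, fun x hx => ?_⟩
    · rw [hσσ γ z hz]
      exact h1 z hz
    · rw [htr γ h1 h2 x hx]
      have h4 : b γ = u := funext h3
      rw [h4]
  refine ⟨σ, hσ, hρσ, hpd1, L.map (nsmulAddMonoidHom m), pnorm_lattice hL hm, ?_, ?_,
    Δ0.index * m, Nat.mul_pos (Nat.pos_of_ne_zero hfi.index_ne_zero) hm, ?_⟩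
  · rintro v ⟨u, hu, rfl⟩
    obtain ⟨γ, -, -, h2⟩ := hLtr u hu
    exact ⟨γ ^ m, pnorm_trans_pow hρ h2 m⟩
  · rintro δ v ⟨u, hu, rfl⟩
    obtain ⟨γ, hγ0, h1, h2⟩ := hLtr u hu
    have hε : δ * γ * δ⁻¹ ∈ Δ0 := hnorm.conj_mem γ hγ0 δ
    have hεt : Triv D σ (δ * γ * δ⁻¹) := by
      intro z hz
      have hz1 : σ δ⁻¹ z ∈ D := hσ.maps _ z hz
      rw [hσ.mul _ _ z hz, hσ.mul _ _ _ hz1, h1 _ hz1, ← hσ.mul _ _ z hz, mul_inv_cancel,
        hσ.one z hz]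
    obtain ⟨w, hw⟩ := htm _ hε hεt
    refine ⟨w, fun x hx => ?_⟩
    have h3 := pnorm_trans_pow hρ h2 m x hx
    have h4 : (δ * γ * δ⁻¹) ^ m * δ = δ * γ ^ m := by
      rw [conj_pow]
      group
    have h5 : ρ δ (ρ (γ ^ m) x) = ρ ((δ * γ * δ⁻¹) ^ m) (ρ δ x) := by
      rw [← hρ.mul _ _ x hx, ← hρ.mul _ _ x hx, h4]
    have h6 := hw _ (hρ.maps δ x hx)
    show prB (ρ δ (Sum.elim (prA x) (prB x + m • u))) = prB (ρ δ x) + w
    rw [← h3, h5, h6]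
    rfl
  · intro δ hδ
    have hk : δ ^ Δ0.index ∈ Δ0 := Δ0.pow_index_mem δ
    obtain ⟨w, hw⟩ := htm _ hk (pnorm_triv_pow hσ hδ _)
    refine ⟨w, fun x hx => ?_⟩
    rw [pow_mul]
    exact hw x hx

theorem normal_lattice {Δ : Type*} [Group Δ] {D : Set (A → ℂ)} (hD : IsOpen D)
    (hc : IsPreconnected D) (hne : D.Nonempty) {R : ℝ} (hR : ∀ z ∈ D, ‖z‖ ≤ R)
    {ρ : Δ → (A ⊕ B → ℂ) → (A ⊕ B → ℂ)} (hρ : HolAct (Tot D B) ρ) (hpd : PD (Tot D B) ρ)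
    (hcc : CC (Tot D B) ρ) {Δ0 : Subgroup Δ} (hfi : Δ0.FiniteIndex)
    (hs1 : ∀ γ ∈ Δ0, ∀ x ∈ Tot D B, ∀ j i, Jac (ρ γ) x (Sum.inr j) (Sum.inl i) = 0)
    (hs2 : ∀ γ ∈ Δ0, ∀ x ∈ Tot D B, ∀ j j', j ≠ j' →
      Jac (ρ γ) x (Sum.inr j) (Sum.inr j') = 0)
    {g : (A ⊕ B → ℂ) → Matrix (A ⊕ B) (A ⊕ B) ℂ} (hg : Kahler (Tot D B) g)
    (hinv : InvForm (Tot D B) ρ g) :
    ∃ σ : Δ → (A → ℂ) → (A → ℂ), HolAct D σ ∧
      (∀ δ, ∀ x ∈ Tot D B, prA (ρ δ x) = σ δ (prA x)) ∧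
      (∀ K ⊆ D, IsCompact K → ∃ T : Finset Δ, ∀ γ, (∃ z ∈ K, σ γ z ∈ K) →
        ∃ t ∈ T, ∀ z ∈ D, σ γ z = σ t z) ∧
      ∃ L : AddSubgroup (B → ℂ), IsLattice L ∧
        (∀ v ∈ L, ∃ δ, ∀ x ∈ Tot D B, ρ δ x = Sum.elim (prA x) (prB x + v)) ∧
        (∀ δ, ∀ v ∈ L, ∃ v' : B → ℂ, ∀ x ∈ Tot D B,
          prB (ρ δ (Sum.elim (prA x) (prB x + v))) = prB (ρ δ x) + v') ∧
        ∃ m : ℕ, 0 < m ∧ ∀ δ, Triv D σ δ → ∃ v : B → ℂ, ∀ x ∈ Tot D B,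
          ρ (δ ^ m) x = Sum.elim (prA x) (prB x + v) := by
  have hfi' : Δ0.normalCore.FiniteIndex := Subgroup.finiteIndex_normalCore Δ0
  exact pnorm_core hD hc hne hR hρ hpd hcc hfi' Δ0.normalCore_normal
    (fun γ hγ => hs1 γ (Δ0.normalCore_le hγ)) (fun γ hγ => hs2 γ (Δ0.normalCore_le hγ)) hg hinv

end Pool.Agent.H906.BD.S
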