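import Pool.Agent.H906.BD.Nonv

/-! # P04 Sep: automorphic forms separate the orbits

The hypotheses are those of `poincare` / `nonv_main` (`BD/Nonv.lean`), for two points in different orbits.
Proof: follow `nonv_main`. `N` annihilates both stabilisers (product of the two numbers given by `nonv_stab`); `w = 2 m N`.
For `i = 0, 1` let `q_i` be a class with `|J_q(z_i)|` maximal, `y_i = σ (s q_i) z_i`. For a polynomial `P` with `P y_i = 1` which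
vanishes at the other points `σ (s q) z_i` with `|J_q(z_i)|` maximal, resp. a polynomial `P` which vanishes at ALL
these points, the normalised series `S_i(P, n) = ∑_q P (σ_q z_i) (c_q(z_i) / c_{q_i}(z_i))^(w (n+1))` converges for `n → ∞` to a real
number `≥ 1`, resp. to `0` (dominated convergence, as `hlim` in `nonv_main`: please first extract it as a lemma for an
arbitrary entire function `P` bounded on `D`: the limit is `∑_q g q * P y`, where only the maximal classes with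
`P (σ_q z_i) ≠ 0` count).
Choose (with `nonv_poly`) `P0`: `P0 y_0 = 1`, zero at the other maximal points `σ_q z_0` and at all maximal points `σ_q z_1`
(possible: `σ_q z_1 ≠ y_0`, because the orbits are different), and `P1` with the roles exchanged. Then
`S_0(P0,n) S_1(P1,n) - S_1(P0,n) S_0(P1,n)` tends to a nonzero limit, so for some `n` it is not `0`. With
`F = series of P0`, `G = series of P1` of weight `l = w (n+1)` (`nonv_form`), `F z_0 G z_1 - F z_1 G z_0 ≠ 0`, and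
`P = G z_0 • F - F z_0 • G` vanishes at `z_0` and is `G z_0 F z_1 - F z_0 G z_1 ≠ 0` at `z_1`. -/

open Filter Topology Set Metric

namespace Pool.Agent.H906.BD

universe u

variable {A : Type*} [Fintype A] [DecidableEq A] {Γ : Type u} [Group Γ]

/-- the local statement at one point -/
theorem psep_loc {D : Set (A → ℂ)} (hD : IsOpen D)
    {σ : Γ → (A → ℂ) → (A → ℂ)} (hσ : HolAct D σ)
    {Q : Type u} (s : Q → Γ) (p : Γ → Q)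
    (hp : ∀ γ, ∀ z ∈ D, σ (s (p γ)) z = σ γ z)
    (hsum : ∀ K ⊆ D, IsCompact K →
        ∃ M : Q → ℝ, Summable M ∧ ∀ q, ∀ z ∈ K, ‖(Jac (σ (s q)) z).det‖ ^ 2 ≤ M q)
    {χ : Γ → ℂ} (hχ1 : ∀ γ, ‖χ γ‖ = 1) (hχ2 : ∀ γ δ, χ (γ * δ) = χ γ * χ δ) {m : ℕ} (hm : 0 < m)
    (hχ3 : ∀ γ, Triv D σ γ → χ γ ^ m = 1) {z₀ : A → ℂ} (hz₀ : z₀ ∈ D) {N : ℕ} (hN0 : 0 < N)
    (hN : ∀ γ, σ γ z₀ = z₀ → Triv D σ (γ ^ N)) :
    ∃ (F : Finset (A → ℂ)) (y₀ : A → ℂ) (c₀ L : ℂ), y₀ ∈ F ∧ (∀ y ∈ F, ∃ γ, y = σ γ z₀) ∧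
      c₀ ≠ 0 ∧ L ≠ 0 ∧ ∀ (P₀ : (A → ℂ) → ℂ) (C : ℝ), (∀ z ∈ D, ‖P₀ z‖ ≤ C) →
        (∀ y ∈ F, y ≠ y₀ → P₀ y = 0) →
        Tendsto (fun n : ℕ => (∑' q, P₀ (σ (s q) z₀) *
          nonv_c σ χ (s q) z₀ ^ (2 * m * N * (n + 1))) / c₀ ^ (n + 1)) atTop (𝓝 (P₀ y₀ * L)) := by
  classical
  -- the numbers `f q = |J_q(z₀)|`
  obtain ⟨f, hf⟩ : ∃ f : Q → ℝ, f = fun q => ‖(Jac (σ (s q)) z₀).det‖ := ⟨_, rfl⟩
  have hfq : ∀ q, ‖nonv_c σ χ (s q) z₀‖ = f q := fun q => by rw [nonv_c_norm hχ1, hf]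
  have hfpos : ∀ q, 0 < f q := fun q => by
    rw [hf]
    exact norm_pos_iff.2 (nonv_ne hD hσ (s q) hz₀)
  have hf2 : Summable fun q => f q ^ 2 := by
    obtain ⟨M, hM, hMb⟩ := hsum {z₀} (singleton_subset_iff.2 hz₀) isCompact_singleton
    refine Summable.of_nonneg_of_le (fun q => by positivity) (fun q => ?_) hM
    rw [hf]
    exact hMb q z₀ rfl
  have hfin : ∀ c : ℝ, 0 < c → {q | c ≤ f q}.Finite := by
    intro c hc
    have h1 := hf2.tendsto_cofinite_zero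
    have h2 : ∀ᶠ q in cofinite, f q ^ 2 < c ^ 2 := h1.eventually (gt_mem_nhds (by positivity))
    rw [eventually_cofinite] at h2
    refine h2.subset fun q hq => ?_
    rw [Set.mem_ofPred_eq, not_lt]
    exact pow_le_pow_left₀ hc.le hq 2
  -- the maximum
  have hf1 : f (p 1) = 1 := by
    rw [hf]
    show ‖(Jac (σ (s (p 1))) z₀).det‖ = 1
    rw [nonv_congr hD (hp 1) hz₀, nonv_one hD hσ hz₀, norm_one]
  obtain ⟨q₀, hq₀F, hq₀⟩ := Set.exists_max_image {q | 1 ≤ f q} f (hfin 1 one_pos)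
    ⟨p 1, hf1.symm.le⟩
  have hmax : ∀ q, f q ≤ f q₀ := by
    intro q
    by_cases h : 1 ≤ f q
    · exact hq₀ q h
    · exact (not_le.1 h).le.trans hq₀F
  have hμ : 0 < f q₀ := hfpos q₀
  obtain ⟨y₀, hy₀⟩ : ∃ y₀, y₀ = σ (s q₀) z₀ := ⟨_, rfl⟩
  -- the quotients
  obtain ⟨w, hw⟩ : ∃ w, w = 2 * m * N := ⟨_, rfl⟩
  have hw2 : 2 ≤ w := by
    rw [hw, mul_assoc]
    exact Nat.le_mul_of_pos_right 2 (Nat.mul_pos hm hN0)
  have hc0 : nonv_c σ χ (s q₀) z₀ ≠ 0 := nonv_c_ne hD hσ hχ1 _ hz₀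
  obtain ⟨a, ha⟩ : ∃ a : Q → ℂ, a = fun q =>
    nonv_c σ χ (s q) z₀ ^ w / nonv_c σ χ (s q₀) z₀ ^ w := ⟨_, rfl⟩
  have han : ∀ q, ‖a q‖ = (f q / f q₀) ^ w := by
    intro q
    rw [ha]
    show ‖nonv_c σ χ (s q) z₀ ^ w / nonv_c σ χ (s q₀) z₀ ^ w‖ = _
    rw [norm_div, norm_pow, norm_pow, hfq, hfq, div_pow]
  have hr0 : ∀ q, 0 ≤ f q / f q₀ := fun q => div_nonneg (hfpos q).le hμ.le
  have hr1 : ∀ q, f q / f q₀ ≤ 1 := fun q => (div_le_one hμ).2 (hmax q)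
  have han1 : ∀ q, ‖a q‖ ≤ 1 := fun q => by
    rw [han]
    exact pow_le_one₀ (hr0 q) (hr1 q)
  have han2 : ∀ q, ‖a q‖ ≤ (f q / f q₀) ^ 2 := fun q => by
    rw [han]
    exact pow_le_pow_of_le_one (hr0 q) (hr1 q) hw2
  have hsq : Summable fun q => (f q / f q₀) ^ 2 := by
    have h1 : (fun q => (f q / f q₀) ^ 2) = fun q => f q ^ 2 * ((f q₀ ^ 2)⁻¹) := by
      ext q
      rw [div_pow, div_eq_mul_inv]
    rw [h1]
    exact hf2.mul_right _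
  -- the limit
  obtain ⟨g, hg⟩ : ∃ g : Q → ℝ, g = fun q =>
    if f q = f q₀ ∧ σ (s q) z₀ = y₀ then (1 : ℝ) else 0 := ⟨_, rfl⟩
  have hg0 : ∀ q, 0 ≤ g q := by
    intro q
    rw [hg]
    show 0 ≤ if f q = f q₀ ∧ σ (s q) z₀ = y₀ then (1 : ℝ) else 0
    split_ifs
    · exact zero_le_one
    · exact le_rfl
  have hg1 : ∀ q, g q ≤ (f q / f q₀) ^ 2 := by
    intro q
    rw [hg]
    show (if f q = f q₀ ∧ σ (s q) z₀ = y₀ then (1 : ℝ) else 0) ≤ _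
    split_ifs with h
    · rw [h.1, div_self hμ.ne', one_pow]
    · positivity
  have hgs : Summable g := Summable.of_nonneg_of_le hg0 hg1 hsq
  have hgq₀ : g q₀ = 1 := by
    rw [hg]
    show (if f q₀ = f q₀ ∧ σ (s q₀) z₀ = y₀ then (1 : ℝ) else 0) = 1
    rw [if_pos ⟨rfl, hy₀.symm⟩]
  have hgt : 1 ≤ ∑' q, g q := by
    rw [← hgq₀]
    exact hgs.le_tsum q₀ (fun q _ => hg0 q)
  have hne : (∑' q, ((g q : ℝ) : ℂ)) ≠ 0 := by
    rw [← Complex.ofReal_tsum]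
    exact Complex.ofReal_ne_zero.2 (by linarith)
  refine ⟨(hfin (f q₀) hμ).toFinset.image fun q => σ (s q) z₀, y₀, nonv_c σ χ (s q₀) z₀ ^ w,
    ∑' q, ((g q : ℝ) : ℂ), ?_, ?_, pow_ne_zero _ hc0, hne, ?_⟩
  · refine Finset.mem_image.2 ⟨q₀, ?_, hy₀.symm⟩
    rw [Set.Finite.mem_toFinset]
    exact le_refl (f q₀)
  · intro y hy
    obtain ⟨q, -, rfl⟩ := Finset.mem_image.1 hy
    exact ⟨s q, rfl⟩
  intro P₀ C hCD hP3
  have hC0 : 0 ≤ C := (norm_nonneg _).trans (hCD z₀ hz₀)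
  have hlim : Tendsto (fun n : ℕ => ∑' q, P₀ (σ (s q) z₀) * a q ^ (n + 1)) atTop
      (𝓝 (∑' q, P₀ y₀ * ((g q : ℝ) : ℂ))) := by
    refine tendsto_tsum_of_dominated_convergence (bound := fun q => C * (f q / f q₀) ^ 2)
      (hsq.mul_left C) (fun q => ?_) (Eventually.of_forall fun n q => ?_)
    · by_cases h1 : f q = f q₀
      · by_cases h2 : σ (s q) z₀ = y₀
        · -- the stabiliser
          have h3 : g q = 1 := by
            rw [hg]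
            show (if f q = f q₀ ∧ σ (s q) z₀ = y₀ then (1 : ℝ) else 0) = 1
            rw [if_pos ⟨h1, h2⟩]
          have h4 : σ ((s q₀)⁻¹ * s q) z₀ = z₀ := by
            rw [hσ.mul _ _ _ hz₀, h2, hy₀, hσ.inv_act _ hz₀]
          have h5 : s q = s q₀ * ((s q₀)⁻¹ * s q) := by group
          have h6 : nonv_c σ χ (s q) z₀ =
              nonv_c σ χ (s q₀) z₀ * nonv_c σ χ ((s q₀)⁻¹ * s q) z₀ := by
            conv_lhs => rw [h5]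
            rw [nonv_c_mul hD hσ hχ2 _ _ hz₀, h4]
          have h7 := nonv_root hD hσ hχ1 hχ2 hχ3 hz₀ h4 (hN _ h4)
          have h8 : a q = 1 := by
            rw [ha]
            show nonv_c σ χ (s q) z₀ ^ w / nonv_c σ χ (s q₀) z₀ ^ w = 1
            rw [h6, mul_pow, hw, h7, mul_one, div_self (pow_ne_zero _ hc0)]
          rw [h3, h2, h8]
          simp only [one_pow, mul_one, Complex.ofReal_one]
          exact tendsto_const_nhds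
        · have h3 : g q = 0 := by
            rw [hg]
            show (if f q = f q₀ ∧ σ (s q) z₀ = y₀ then (1 : ℝ) else 0) = 0
            rw [if_neg fun h => h2 h.2]
          have h4 : P₀ (σ (s q) z₀) = 0 := by
            refine hP3 _ (Finset.mem_image.2 ⟨q, ?_, rfl⟩) h2
            rw [Set.Finite.mem_toFinset]
            exact h1.symm.le
          rw [h3, h4]
          simp only [zero_mul, Complex.ofReal_zero, mul_zero]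
          exact tendsto_const_nhds
      · have h2 : f q < f q₀ := lt_of_le_of_ne (hmax q) h1
        have h3 : g q = 0 := by
          rw [hg]
          show (if f q = f q₀ ∧ σ (s q) z₀ = y₀ then (1 : ℝ) else 0) = 0
          rw [if_neg fun h => h1 h.1]
        have h4 : ‖a q‖ < 1 := by
          rw [han]
          exact pow_lt_one₀ (hr0 q) ((div_lt_one hμ).2 h2) (by omega)
        have h5 : Tendsto (fun n : ℕ => a q ^ (n + 1)) atTop (𝓝 0) :=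
          (tendsto_pow_atTop_nhds_zero_of_norm_lt_one h4).comp (tendsto_add_atTop_nat 1)
        have h6 := h5.const_mul (P₀ (σ (s q) z₀))
        rw [mul_zero] at h6
        rw [h3, Complex.ofReal_zero, mul_zero]
        exact h6
    · rw [norm_mul, norm_pow]
      have h1 : ‖a q‖ ^ (n + 1) ≤ ‖a q‖ := by
        have h2 := pow_le_pow_of_le_one (norm_nonneg (a q)) (han1 q) (show 1 ≤ n + 1 by omega)
        rwa [pow_one] at h2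
      exact mul_le_mul (hCD _ (hσ.maps _ _ hz₀)) (h1.trans (han2 q)) (by positivity) hC0
  rw [tsum_mul_left] at hlim
  refine hlim.congr fun n => ?_
  rw [← hw, ← tsum_div_const]
  refine tsum_congr fun q => ?_
  rw [ha]
  show P₀ (σ (s q) z₀) * (nonv_c σ χ (s q) z₀ ^ w / nonv_c σ χ (s q₀) z₀ ^ w) ^ (n + 1) = _
  rw [div_pow, ← pow_mul, mul_div_assoc]

/-- the main step, with a transversal of the kernel of the action -/
theorem psep_main {D : Set (A → ℂ)} (hD : IsOpen D) {R : ℝ} (hR : ∀ z ∈ D, ‖z‖ ≤ R)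
    {σ : Γ → (A → ℂ) → (A → ℂ)} (hσ : HolAct D σ)
    (hdisc : ∀ K ⊆ D, IsCompact K → ∃ T : Finset Γ, ∀ γ, (∃ z ∈ K, σ γ z ∈ K) →
      ∃ t ∈ T, ∀ z ∈ D, σ γ z = σ t z)
    (hjac : ∀ γ, DifferentiableOn ℂ (fun z => (Jac (σ γ) z).det) D)
    {Q : Type u} (s : Q → Γ) (p : Γ → Q)
    (hs : ∀ q q', (∀ z ∈ D, σ (s q) z = σ (s q') z) → q = q')
    (hp : ∀ γ, ∀ z ∈ D, σ (s (p γ)) z = σ γ z)
    (hsum : ∀ K ⊆ D, IsCompact K →
        ∃ M : Q → ℝ, Summable M ∧ ∀ q, ∀ z ∈ K, ‖(Jac (σ (s q)) z).det‖ ^ 2 ≤ M q)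
    {χ : Γ → ℂ} (hχ1 : ∀ γ, ‖χ γ‖ = 1) (hχ2 : ∀ γ δ, χ (γ * δ) = χ γ * χ δ) {m : ℕ} (hm : 0 < m)
    (hχ3 : ∀ γ, Triv D σ γ → χ γ ^ m = 1) {z₀ z₁ : A → ℂ} (hz₀ : z₀ ∈ D) (hz₁ : z₁ ∈ D)
    (hne : ∀ γ, σ γ z₀ ≠ z₁) :
    ∃ l, 0 < l ∧ m ∣ l ∧ ∃ P : (A → ℂ) → ℂ, DifferentiableOn ℂ P D ∧
      (∀ γ, ∀ z ∈ D, P (σ γ z) * ((Jac (σ γ) z).det * χ γ) ^ l = P z) ∧ P z₀ = 0 ∧ P z₁ ≠ 0 := by
  classical
  obtain ⟨N₀, hN₀, hst₀⟩ := nonv_stab hσ hdisc hz₀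
  obtain ⟨N₁, hN₁, hst₁⟩ := nonv_stab hσ hdisc hz₁
  obtain ⟨N, hN⟩ : ∃ N, N = N₀ * N₁ := ⟨_, rfl⟩
  have hN0 : 0 < N := by rw [hN]; exact Nat.mul_pos hN₀ hN₁
  have hs0 : ∀ γ, σ γ z₀ = z₀ → Triv D σ (γ ^ N) := by
    intro γ h
    rw [hN, pow_mul]
    exact nonv_triv_pow hσ (hst₀ γ h) _
  have hs1 : ∀ γ, σ γ z₁ = z₁ → Triv D σ (γ ^ N) := by
    intro γ h
    rw [hN, mul_comm, pow_mul]
    exact nonv_triv_pow hσ (hst₁ γ h) _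
  obtain ⟨F₀, y₀, c₀, L₀, hy₀, hF₀, hc₀, hL₀, hT₀⟩ :=
    psep_loc hD hσ s p hp hsum hχ1 hχ2 hm hχ3 hz₀ hN0 hs0
  obtain ⟨F₁, y₁, c₁, L₁, hy₁, hF₁, hc₁, hL₁, hT₁⟩ :=
    psep_loc hD hσ s p hp hsum hχ1 hχ2 hm hχ3 hz₁ hN0 hs1
  have hdis : ∀ y ∈ F₀, y ∉ F₁ := by
    intro y h0 h1
    obtain ⟨γ, hγ⟩ := hF₀ y h0
    obtain ⟨δ, hδ⟩ := hF₁ y h1
    refine hne (δ⁻¹ * γ) ?_
    rw [hσ.mul _ _ _ hz₀, ← hγ, hδ, hσ.inv_act _ hz₁]
  obtain ⟨P, hP1, hP2, hP3⟩ := nonv_poly y₀ ((F₀ ∪ F₁).erase y₀) (Finset.notMem_erase _ _)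
  obtain ⟨P', hP1', hP2', hP3'⟩ := nonv_poly y₁ ((F₀ ∪ F₁).erase y₁) (Finset.notMem_erase _ _)
  obtain ⟨C, hC⟩ := (isCompact_closedBall (0 : A → ℂ) R).exists_bound_of_continuousOn
    hP1.continuous.continuousOn
  have hCD : ∀ z ∈ D, ‖P z‖ ≤ C := fun z hz => hC z (mem_closedBall_zero_iff.2 (hR z hz))
  obtain ⟨C', hC'⟩ := (isCompact_closedBall (0 : A → ℂ) R).exists_bound_of_continuousOn
    hP1'.continuous.continuousOn
  have hCD' : ∀ z ∈ D, ‖P' z‖ ≤ C' := fun z hz => hC' z (mem_closedBall_zero_iff.2 (hR z hz))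
  have z0 : ∀ y ∈ F₀ ∪ F₁, y ≠ y₀ → P y = 0 := fun y hy h => hP3 y (Finset.mem_erase.2 ⟨h, hy⟩)
  have z1 : ∀ y ∈ F₀ ∪ F₁, y ≠ y₁ → P' y = 0 := fun y hy h => hP3' y (Finset.mem_erase.2 ⟨h, hy⟩)
  have hy01 : y₀ ≠ y₁ := fun h => hdis y₀ hy₀ (h ▸ hy₁)
  have e1 : P y₁ = 0 := z0 y₁ (Finset.mem_union_right _ hy₁) hy01.symm
  have e2 : P' y₀ = 0 := z1 y₀ (Finset.mem_union_left _ hy₀) hy01
  have t00 := hT₀ P C hCD (fun y hy h => z0 y (Finset.mem_union_left _ hy) h)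
  have t01 := hT₀ P' C' hCD' (fun y hy h => z1 y (Finset.mem_union_left _ hy)
    (fun h' => hdis y hy (h' ▸ hy₁)))
  have t10 := hT₁ P C hCD (fun y hy h => z0 y (Finset.mem_union_right _ hy)
    (fun h' => hdis y₀ hy₀ (h' ▸ hy)))
  have t11 := hT₁ P' C' hCD' (fun y hy h => z1 y (Finset.mem_union_right _ hy) h)
  rw [hP2, one_mul] at t00
  rw [e2, zero_mul] at t01
  rw [e1, zero_mul] at t10
  rw [hP2', one_mul] at t11
  have tt := (t00.mul t11).sub (t10.mul t01)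
  rw [mul_zero, sub_zero] at tt
  obtain ⟨n, hn⟩ := (tt.eventually_ne (mul_ne_zero hL₀ hL₁)).exists
  -- conclusion
  have hl : 2 * m * N * (n + 1) = 2 * ((m * N * (n + 1) - 1) + 1) := by
    have h1 : 0 < m * N * (n + 1) := by positivity
    rw [Nat.sub_add_cancel h1]
    ring
  have hml : m ∣ 2 * m * N * (n + 1) := ⟨2 * N * (n + 1), by ring⟩
  obtain ⟨h1, h2⟩ := nonv_form hD hσ hjac s p hs hp hsum hχ1 hχ2 hχ3 hl hml hP1 hCD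
  obtain ⟨h3, h4⟩ := nonv_form hD hσ hjac s p hs hp hsum hχ1 hχ2 hχ3 hl hml hP1' hCD'
  obtain ⟨Φ, hΦ⟩ : ∃ Φ : (A → ℂ) → ℂ, Φ = fun z =>
    ∑' q, P (σ (s q) z) * nonv_c σ χ (s q) z ^ (2 * m * N * (n + 1)) := ⟨_, rfl⟩
  obtain ⟨Ψ, hΨ⟩ : ∃ Ψ : (A → ℂ) → ℂ, Ψ = fun z =>
    ∑' q, P' (σ (s q) z) * nonv_c σ χ (s q) z ^ (2 * m * N * (n + 1)) := ⟨_, rfl⟩
  have g1 : DifferentiableOn ℂ Φ D := by rw [hΦ]; exact h1
  have g2 : ∀ γ, ∀ z ∈ D, Φ (σ γ z) * nonv_c σ χ γ z ^ (2 * m * N * (n + 1)) = Φ z := by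
    rw [hΦ]; exact h2
  have g3 : DifferentiableOn ℂ Ψ D := by rw [hΨ]; exact h3
  have g4 : ∀ γ, ∀ z ∈ D, Ψ (σ γ z) * nonv_c σ χ γ z ^ (2 * m * N * (n + 1)) = Ψ z := by
    rw [hΨ]; exact h4
  have g5 : Φ z₀ / c₀ ^ (n + 1) * (Ψ z₁ / c₁ ^ (n + 1)) -
      Φ z₁ / c₁ ^ (n + 1) * (Ψ z₀ / c₀ ^ (n + 1)) ≠ 0 := by
    rw [hΦ, hΨ]
    exact hn
  have g6 : Ψ z₀ * Φ z₁ - Φ z₀ * Ψ z₁ ≠ 0 := by
    intro h0
    apply g5
    have hd0 : c₀ ^ (n + 1) ≠ 0 := pow_ne_zero _ hc₀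
    have hd1 : c₁ ^ (n + 1) ≠ 0 := pow_ne_zero _ hc₁
    rw [div_mul_div_comm, div_mul_div_comm, mul_comm (c₁ ^ (n + 1)) (c₀ ^ (n + 1)), ← sub_div,
      div_eq_zero_iff]
    left
    linear_combination -h0
  refine ⟨2 * m * N * (n + 1), by positivity, hml, fun z => Ψ z₀ * Φ z - Φ z₀ * Ψ z, ?_, ?_, ?_,
    g6⟩
  · exact (g1.const_mul _).sub (g3.const_mul _)
  · intro γ z hz
    have k1 := g2 γ z hz
    have k2 := g4 γ z hz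
    unfold nonv_c at k1 k2
    show (Ψ z₀ * Φ (σ γ z) - Φ z₀ * Ψ (σ γ z)) * _ = Ψ z₀ * Φ z - Φ z₀ * Ψ z
    rw [← k1, ← k2]
    ring
  · show Ψ z₀ * Φ z₀ - Φ z₀ * Ψ z₀ = 0
    ring

theorem poincare_sep {D : Set (A → ℂ)} (hD : IsOpen D) {R : ℝ} (hR : ∀ z ∈ D, ‖z‖ ≤ R)
    {σ : Γ → (A → ℂ) → (A → ℂ)} (hσ : HolAct D σ)
    (hdisc : ∀ K ⊆ D, IsCompact K → ∃ T : Finset Γ, ∀ γ, (∃ z ∈ K, σ γ z ∈ K) →
      ∃ t ∈ T, ∀ z ∈ D, σ γ z = σ t z)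
    (hjac : ∀ γ, DifferentiableOn ℂ (fun z => (Jac (σ γ) z).det) D)
    (hsum : ∀ {Q : Type u} (s : Q → Γ), (∀ q q', (∀ z ∈ D, σ (s q) z = σ (s q') z) → q = q') →
      ∀ K ⊆ D, IsCompact K →
        ∃ M : Q → ℝ, Summable M ∧ ∀ q, ∀ z ∈ K, ‖(Jac (σ (s q)) z).det‖ ^ 2 ≤ M q)
    {χ : Γ → ℂ} (hχ1 : ∀ γ, ‖χ γ‖ = 1) (hχ2 : ∀ γ δ, χ (γ * δ) = χ γ * χ δ) {m : ℕ} (hm : 0 < m)
    (hχ3 : ∀ γ, Triv D σ γ → χ γ ^ m = 1) {z₀ z₁ : A → ℂ} (hz₀ : z₀ ∈ D) (hz₁ : z₁ ∈ D)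
    (hne : ∀ γ, σ γ z₀ ≠ z₁) :
    ∃ l, 0 < l ∧ m ∣ l ∧ ∃ P : (A → ℂ) → ℂ, DifferentiableOn ℂ P D ∧
      (∀ γ, ∀ z ∈ D, P (σ γ z) * ((Jac (σ γ) z).det * χ γ) ^ l = P z) ∧ P z₀ = 0 ∧ P z₁ ≠ 0 := by
  let S : Setoid Γ := ⟨fun γ δ => ∀ z ∈ D, σ γ z = σ δ z, ⟨fun γ z _ => rfl,
    fun h z hz => (h z hz).symm, fun h h' z hz => (h z hz).trans (h' z hz)⟩⟩
  have hs : ∀ q q' : Quotient S, (∀ z ∈ D, σ q.out z = σ q'.out z) → q = q' := by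
    intro q q' h
    rw [← Quotient.out_eq q, ← Quotient.out_eq q']
    exact Quotient.sound h
  have hp : ∀ γ, ∀ z ∈ D, σ (Quotient.mk S γ).out z = σ γ z := fun γ =>
    Quotient.exact (Quotient.out_eq (Quotient.mk S γ))
  exact psep_main hD hR hσ hdisc hjac (fun q : Quotient S => q.out) (Quotient.mk S) hs hp
    (hsum _ hs) hχ1 hχ2 hm hχ3 hz₀ hz₁ hne

end Pool.Agent.H906.BD
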