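import Pool.Agent.H906.BD.P.Fib
import Pool.Agent.H906.BD.P.Norm
import Pool.Agent.H906.BD.P.DetLat
import Pool.Agent.H906.BD.P.Sep
import Pool.Agent.H906.BD.P.Gen

/-! # The Iitaka fibration of compact Kähler quotients of `D × ℂ^B` -/

set_option linter.unusedSectionVars false

open Filter Topology Set Metric
open scoped ComplexOrder

namespace Pool.Agent.H906.BD.S

variable {A B : Type*} [Fintype A] [Fintype B] [DecidableEq A] [DecidableEq B]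

theorem contraction_thm {Δ : Type*} [Group Δ] {D : Set (A → ℂ)} (hD : IsOpen D)
    (hc : IsPreconnected D) (hne : D.Nonempty) {R : ℝ} (hR : ∀ z ∈ D, ‖z‖ ≤ R)
    {ρ : Δ → (A ⊕ B → ℂ) → (A ⊕ B → ℂ)} (hρ : HolAct (Tot D B) ρ) (hpd : PD (Tot D B) ρ)
    (hcc : CC (Tot D B) ρ) {Δ0 : Subgroup Δ} (hfi : Δ0.FiniteIndex)
    (hs1 : ∀ γ ∈ Δ0, ∀ x ∈ Tot D B, ∀ j i, Jac (ρ γ) x (Sum.inr j) (Sum.inl i) = 0)
    (hs2 : ∀ γ ∈ Δ0, ∀ x ∈ Tot D B, ∀ j j', j ≠ j' →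
      Jac (ρ γ) x (Sum.inr j) (Sum.inr j') = 0)
    {g : (A ⊕ B → ℂ) → Matrix (A ⊕ B) (A ⊕ B) ℂ} (hg : Kahler (Tot D B) g)
    (hinv : InvForm (Tot D B) ρ g) :
    ∃ (σ : Δ → (A → ℂ) → (A → ℂ)) (l : ℕ) (e : Δ → (A → ℂ) → ℂ), 0 < l ∧ HolAct D σ ∧
      (∀ δ, ∀ x ∈ Tot D B, prA (ρ δ x) = σ δ (prA x)) ∧
      (∀ K ⊆ D, IsCompact K → ∃ T : Finset Δ, ∀ γ, (∃ z ∈ K, σ γ z ∈ K) →
        ∃ t ∈ T, ∀ z ∈ D, σ γ z = σ t z) ∧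
      (∃ K ⊆ D, IsCompact K ∧ ∀ z ∈ D, ∃ γ, σ γ z ∈ K) ∧
      (∀ U ⊆ D, IsOpen U → ∀ G : (A ⊕ B → ℂ) → ℂ, DifferentiableOn ℂ G {x | prA x ∈ U} →
        (∀ δ, ∀ x, prA x ∈ U → G (ρ δ x) = G x) →
        ∃ φ : (A → ℂ) → ℂ, DifferentiableOn ℂ φ U ∧ ∀ x, prA x ∈ U → G x = φ (prA x)) ∧
      (∀ δ, DifferentiableOn ℂ (e δ) D) ∧
      (∀ γ δ, ∀ z ∈ D, e (γ * δ) z = e γ (σ δ z) * e δ z) ∧
      (∀ δ, ∀ z ∈ D, σ δ z = z → e δ z = 1) ∧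
      (∀ δ, ∀ x ∈ Tot D B, (Jac (ρ δ) x).det ^ l = e δ (prA x)) ∧
      (∀ z ∈ D, ∃ φ : (A → ℂ) → ℂ, DifferentiableOn ℂ φ D ∧
        (∀ δ, ∀ z ∈ D, φ (σ δ z) * e δ z = φ z) ∧ φ z ≠ 0) ∧
      ∀ z ∈ D, ∀ z' ∈ D, (∀ δ, σ δ z ≠ z') → ∃ k : ℕ, 0 < k ∧ ∃ φ : (A → ℂ) → ℂ,
        DifferentiableOn ℂ φ D ∧ (∀ δ, ∀ z ∈ D, φ (σ δ z) * e δ z ^ k = φ z) ∧
        φ z = 0 ∧ φ z' ≠ 0 := by
  obtain ⟨σ, hσ, hρσ, hdisc, L, hL, hLt, hLn, m, hm, hmt⟩ :=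
    normal_lattice hD hc hne hR hρ hpd hcc hfi hs1 hs2 hg hinv
  obtain ⟨M, hMj, haff, hMm, hMd⟩ := fib_linear hD hc hne hρ hσ hρσ hL hLn
  have hccD : ∃ K ⊆ D, IsCompact K ∧ ∀ z ∈ D, ∃ γ, σ γ z ∈ K := by
    obtain ⟨K, hK, hKc, hcov⟩ := hcc
    refine ⟨prA '' K, ?_, hKc.image continuous_prA, fun z hz => ?_⟩
    · rintro _ ⟨y, hy, rfl⟩
      exact hK hy
    · have hx : (Sum.elim z 0 : A ⊕ B → ℂ) ∈ Tot D B := hz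
      obtain ⟨γ, hγ⟩ := hcov _ hx
      refine ⟨γ, ρ γ (Sum.elim z 0), hγ, ?_⟩
      rw [hρσ γ _ hx]
      rfl
  have hχ1 : ∀ γ, ‖(M γ).det‖ = 1 := unitary_det hne hρ hpd hσ hρσ hL hLt haff hMm
  have hχ2 : ∀ γ δ, (M (γ * δ)).det = (M γ).det * (M δ).det := fun γ δ => by
    rw [hMm, Matrix.det_mul]
  have hχ3 : ∀ γ, Triv D σ γ → (M γ).det ^ m = 1 := fun γ hγ =>
    det_pow_eq_one hne hρ haff hMm (hmt γ hγ)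
  have hjac : ∀ γ, DifferentiableOn ℂ (fun z => (Jac (σ γ) z).det) D := fun γ =>
    jacDet_hol hD (hσ.hol γ)
  have hsum := fun {Q : Type _} (s : Q → Δ) hs K hK hKc => jac_summable hD hR hσ hdisc
      (fun hV _ hρ hinj => volume_image hV hρ hinj) s hs (K := K) hK hKc
  obtain ⟨c, hcdef⟩ : ∃ c : Δ → (A → ℂ) → ℂ, c = fun γ z => (Jac (σ γ) z).det * (M γ).det :=
    ⟨_, rfl⟩
  have hcz : ∀ γ z, c γ z = (Jac (σ γ) z).det * (M γ).det := fun γ z => by rw [hcdef]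
  have hc0 : ∀ γ, ∀ z ∈ D, c γ z ≠ 0 := by
    intro γ z hz
    rw [hcz]
    refine mul_ne_zero (nonv_ne hD hσ γ hz) ?_
    rw [← norm_ne_zero_iff, hχ1]
    exact one_ne_zero
  have hcm : ∀ γ δ, ∀ z ∈ D, c (γ * δ) z = c γ (σ δ z) * c δ z := by
    intro γ δ z hz
    rw [hcz, hcz, hcz, nonv_chain hD hσ γ δ hz, hχ2]
    ring
  obtain ⟨K, hK, hKc, hcov⟩ := id hccD
  obtain ⟨l, hl, hgen⟩ := uniform_weight hD hσ hK hKc hcov hc0 (fun z hz => by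
    obtain ⟨l, hl, -, P, hP1, hP2, hP3⟩ := poincare hD hR hσ hdisc hjac hsum hχ1 hχ2 hm hχ3 hz
    exact ⟨l, hl, P, hP1, fun γ z hz => by rw [hcz]; exact hP2 γ z hz, hP3⟩)
  refine ⟨σ, l, fun γ z => c γ z ^ l, hl, hσ, hρσ, hdisc, hccD, ?_, ?_, ?_, ?_, ?_, ?_, ?_⟩
  · intro U hUD hU G hG hGi
    exact pull_back hL hLt hU hUD hG hGi
  · intro γ
    refine DifferentiableOn.pow ?_ l
    rw [hcdef]
    exact (hjac γ).mul_const _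
  · intro γ δ z hz
    show c (γ * δ) z ^ l = c γ (σ δ z) ^ l * c δ z ^ l
    rw [hcm γ δ z hz, mul_pow]
  · intro δ z hz h
    obtain ⟨P, -, hP2, hP3⟩ := hgen z hz
    have h1 := hP2 δ z hz
    rw [h] at h1
    exact mul_left_cancel₀ hP3 (h1.trans (mul_one _).symm)
  · intro δ x hx
    show _ = c δ (prA x) ^ l
    rw [hMd δ x hx, hcz]
  · intro z hz
    obtain ⟨P, hP1, hP2, hP3⟩ := hgen z hz
    exact ⟨P, hP1, hP2, hP3⟩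
  · intro z hz z' hz' hzz
    obtain ⟨k, hk, -, P, hP1, hP2, hP3, hP4⟩ :=
      poincare_sep hD hR hσ hdisc hjac hsum hχ1 hχ2 hm hχ3 hz hz' hzz
    refine ⟨k, hk, fun z => P z ^ l, hP1.pow l, fun δ y hy => ?_, ?_, ?_⟩
    · show P (σ δ y) ^ l * (c δ y ^ l) ^ k = P y ^ l
      rw [← hP2 δ y hy, mul_pow, hcz, ← pow_mul, ← pow_mul, mul_comm k l]
    · show P z ^ l = 0
      rw [hP3, zero_pow hl.ne']
    · exact pow_ne_zero _ hP4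

end Pool.Agent.H906.BD.S
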